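import Pool.Agent.TH377.Sup.Cnt

/-! # Counting polynomials over a finite field by their factorisation type -/

set_option autoImplicit false
set_option linter.all false

namespace Pool.Agent.T6.H28.BB

open Polynomial Pool.Agent.TH377.Sup

universe u v

section finite

variable (κ : Type u) [Field κ] [Finite κ]

/-- the elements of small degree -/
theorem few' (E : Type v) [Field E] [Algebra κ E] [Finite E] (d : ℕ) (hd : 1 ≤ d)
    (hE : Module.finrank κ E = d) :
    4 * {z : E | (minpoly κ z).natDegree ≠ d}.ncard ≤ 2 * Nat.card E := by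
  classical
  rcases (show d = 1 ∨ d = 2 ∨ 3 ≤ d by omega) with rfl | rfl | h3
  · have h1 : {z : E | (minpoly κ z).natDegree ≠ 1} = ∅ := by
      rw [Set.eq_empty_iff_forall_notMem]
      intro z hz
      apply hz
      have hdvd : (minpoly κ z).natDegree ∣ 1 := by
        rw [← hE]
        exact minpoly.degree_dvd (Algebra.IsIntegral.isIntegral z)
      exact Nat.dvd_one.1 hdvd
    rw [h1, Set.ncard_empty]
    exact Nat.zero_le _
  · have hfd : FiniteDimensional κ E := Module.finite_of_finrank_pos (by omega)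
    have hcardE : Nat.card E = Nat.card κ ^ 2 := by
      rw [← hE, Module.natCard_eq_pow_finrank (K := κ)]
    have hq2 : 2 ≤ Nat.card κ := Finite.one_lt_card
    have hsub : {z : E | (minpoly κ z).natDegree ≠ 2} ⊆ Set.range (algebraMap κ E) := by
      intro z hz
      have hdvd : (minpoly κ z).natDegree ∣ 2 := by
        rw [← hE]
        exact minpoly.degree_dvd (Algebra.IsIntegral.isIntegral z)
      have h1 : (minpoly κ z).natDegree = 1 :=
        ((Nat.dvd_prime Nat.prime_two).1 hdvd).resolve_right hz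
      exact minpoly.natDegree_eq_one_iff.1 h1
    have h1 : {z : E | (minpoly κ z).natDegree ≠ 2}.ncard ≤ Nat.card κ := by
      refine (Set.ncard_le_ncard hsub (Set.toFinite _)).trans ?_
      rw [← Set.image_univ]
      refine (Set.ncard_image_le (Set.toFinite _)).trans ?_
      rw [Set.ncard_univ]
    rw [hcardE]
    nlinarith
  · exact few κ E d h3 hE

/-- there are many irreducible polynomials -/
theorem irr_card' (d : ℕ) (hd : 1 ≤ d) :
    (Nat.card κ - 1) * Nat.card κ ^ d ≤ 2 * d * (Irr κ d).ncard := by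
  classical
  obtain ⟨p, hp⟩ := CharP.exists κ
  have hpp : Fact p.Prime := ⟨CharP.char_is_prime κ p⟩
  have hnz : NeZero d := ⟨by omega⟩
  let E := FiniteField.Extension κ p d
  have hE : Module.finrank κ E = d := FiniteField.finrank_extension κ p d
  have hcard : Nat.card E = Nat.card κ ^ d := FiniteField.natCard_extension κ p d
  have hfe := few' κ E d hd hE
  have hFE : Fintype E := Fintype.ofFinite E
  have hFκ : Fintype κ := Fintype.ofFinite κ
  set B : Set E := {z : E | (minpoly κ z).natDegree ≠ d} with hB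
  set G : Finset E := Finset.univ.filter fun z => (minpoly κ z).natDegree = d with hG
  have hGB : G.card + B.ncard = Nat.card E := by
    have h1 : (G : Set E) = Bᶜ := by
      ext z
      simp [hG, hB]
    rw [← Set.ncard_coe_finset, h1, add_comm, Set.ncard_add_ncard_compl]
  let T : Finset (Fin (d + 1) → κ) := (Set.toFinite (Irr κ d)).toFinset
  have hT : T.card = (Irr κ d).ncard := (Set.ncard_eq_toFinset_card _ _).symm
  let Φ : κˣ × E → (Fin (d + 1) → κ) := fun x i => (C (x.1 : κ) * minpoly κ x.2).coeff i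
  have hΦ : ∀ x : κˣ × E, x.2 ∈ G → pol (Φ x) = C (x.1 : κ) * minpoly κ x.2 := by
    intro x hx
    refine pol_of _ ?_
    rw [natDegree_C_mul x.1.ne_zero]
    exact le_of_eq (Finset.mem_filter.1 hx).2
  have hlast : ∀ x : κˣ × E, x.2 ∈ G → Φ x (Fin.last d) = x.1 := by
    intro x hx
    have h1 : (minpoly κ x.2).natDegree = d := (Finset.mem_filter.1 hx).2
    have hmon : (minpoly κ x.2).Monic := minpoly.monic (Algebra.IsIntegral.isIntegral x.2)
    change (C (x.1 : κ) * minpoly κ x.2).coeff ((Fin.last d : Fin (d + 1)) : ℕ) = _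
    rw [Fin.val_last, coeff_C_mul]
    have h2 : (minpoly κ x.2).coeff d = 1 := by
      have := hmon.coeff_natDegree
      rwa [h1] at this
    rw [h2, mul_one]
  have key := Finset.card_le_mul_card_image_of_maps_to (f := Φ)
    (s := (Finset.univ : Finset κˣ) ×ˢ G) (t := T) (by
      intro x hx
      have hx2 : x.2 ∈ G := (Finset.mem_product.1 hx).2
      rw [Set.Finite.mem_toFinset]
      refine ⟨?_, ?_⟩
      · rw [hlast x hx2]
        exact x.1.ne_zero
      · rw [hΦ x hx2]
        have hirr := minpoly.irreducible (Algebra.IsIntegral.isIntegral (R := κ) x.2)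
        exact (irreducible_isUnit_mul (isUnit_C.2 x.1.isUnit)).2 hirr) d (by
      intro c hc
      rw [Set.Finite.mem_toFinset] at hc
      have h0 : (pol c).map (algebraMap κ E) ≠ 0 :=
        (Polynomial.map_ne_zero_iff (algebraMap κ E).injective).2 hc.2.ne_zero
      have h1 : ((((Finset.univ : Finset κˣ) ×ˢ G).filter fun x => Φ x = c).image Prod.snd).card ≤
          d := by
        have h2 : (((Finset.univ : Finset κˣ) ×ˢ G).filter fun x => Φ x = c).image Prod.snd ⊆
            ((pol c).map (algebraMap κ E)).roots.toFinset := by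
          intro z hz
          obtain ⟨x, hx, rfl⟩ := Finset.mem_image.1 hz
          obtain ⟨hx1, hx2⟩ := Finset.mem_filter.1 hx
          rw [Multiset.mem_toFinset, mem_roots h0, IsRoot.def, ← hx2,
            hΦ x (Finset.mem_product.1 hx1).2, eval_map_algebraMap, map_mul, minpoly.aeval,
            mul_zero]
        refine (Finset.card_le_card h2).trans ((Multiset.toFinset_card_le _).trans
          ((card_roots' _).trans ?_))
        exact natDegree_map_le.trans (pol_natDegree_le c)
      rwa [Finset.card_image_of_injOn] at h1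
      intro x hx y hy hxy
      obtain ⟨hx1, hx2⟩ := Finset.mem_filter.1 (Finset.mem_coe.1 hx)
      obtain ⟨hy1, hy2⟩ := Finset.mem_filter.1 (Finset.mem_coe.1 hy)
      refine Prod.ext ?_ hxy
      apply Units.ext
      rw [← hlast x (Finset.mem_product.1 hx1).2, ← hlast y (Finset.mem_product.1 hy1).2, hx2,
        hy2])
  rw [Finset.card_product, hT, Finset.card_univ, ← Nat.card_eq_fintype_card, Nat.card_units] at key
  have h6 : Nat.card κ ^ d ≤ 2 * G.card := by
    rw [← hcard]
    omega
  calc (Nat.card κ - 1) * Nat.card κ ^ d ≤ (Nat.card κ - 1) * (2 * G.card) :=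
        Nat.mul_le_mul_left _ h6
    _ = 2 * ((Nat.card κ - 1) * G.card) := by ring
    _ ≤ 2 * (d * (Irr κ d).ncard) := Nat.mul_le_mul_left _ key
    _ = 2 * d * (Irr κ d).ncard := by ring

/-- the products of a linear and an irreducible polynomial of degree `d` -/
def TwoIrr (κ : Type u) [CommRing κ] (d : ℕ) : Set (Fin (d + 2) → κ) :=
  {c | ∃ (a : κ) (Q : κ[X]), Irreducible Q ∧ Q.natDegree = d ∧ pol c = (X - C a) * Q}

theorem pol_inj {d : ℕ} {c c' : Fin (d + 1) → κ} (h : pol c = pol c') : c = c' := by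
  funext i
  rw [← pol_coeff c i, h, pol_coeff]

theorem two_card (d : ℕ) (hd : 2 ≤ d) :
    (Nat.card κ - 1) * Nat.card κ ^ (d + 1) ≤ 2 * d * (TwoIrr κ d).ncard := by
  classical
  have h0 := irr_card' κ d (by omega)
  have h1 : Nat.card κ * (Irr κ d).ncard ≤ (TwoIrr κ d).ncard := by
    rw [← Set.ncard_univ, ← Set.ncard_prod]
    refine Set.ncard_le_ncard_of_injOn
      (fun x => fun i : Fin (d + 2) => ((X - C x.1) * pol x.2).coeff i) ?_ ?_ (Set.toFinite _)
    · rintro ⟨a, c⟩ ⟨-, hc⟩
      refine ⟨a, pol c, hc.2, pol_natDegree c hc.1, ?_⟩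
      refine pol_of _ ?_
      refine natDegree_mul_le.trans ?_
      rw [natDegree_X_sub_C, pol_natDegree c hc.1]
      omega
    · rintro ⟨a, c⟩ ⟨-, hc⟩ ⟨a', c'⟩ ⟨-, hc'⟩ h
      have hdeg : ∀ (a : κ) (c : Fin (d + 1) → κ), c ∈ Irr κ d →
          ((X - C a) * pol c).natDegree ≤ d + 1 := by
        intro a c hc
        refine natDegree_mul_le.trans ?_
        rw [natDegree_X_sub_C, pol_natDegree c hc.1]
        omega
      have h2 : (X - C a) * pol c = (X - C a') * pol c' := by
        rw [← pol_of _ (hdeg a c hc), ← pol_of _ (hdeg a' c' hc')]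
        exact congrArg pol h
      have h3 : a = a' := by
        by_contra hne
        have h4 : (X - C a') ∣ (X - C a) * pol c := ⟨pol c', h2⟩
        have h5 : (X - C a') ∣ pol c :=
          (pairwise_coprime_X_sub_C Function.injective_id (Ne.symm hne)).dvd_of_dvd_mul_left h4
        have h6 : (pol c).IsRoot a' := dvd_iff_isRoot.1 h5
        have h7 := degree_eq_one_of_irreducible_of_root hc.2 h6
        have h8 : (pol c).natDegree = 1 := natDegree_eq_of_degree_eq_some h7
        rw [pol_natDegree c hc.1] at h8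
        omega
      subst h3
      have h4 := mul_left_cancel₀ (X_sub_C_ne_zero a) h2
      rw [pol_inj κ h4]
  calc (Nat.card κ - 1) * Nat.card κ ^ (d + 1)
      = Nat.card κ * ((Nat.card κ - 1) * Nat.card κ ^ d) := by ring
    _ ≤ Nat.card κ * (2 * d * (Irr κ d).ncard) := Nat.mul_le_mul_left _ h0
    _ = 2 * d * (Nat.card κ * (Irr κ d).ncard) := by ring
    _ ≤ 2 * d * (TwoIrr κ d).ncard := Nat.mul_le_mul_left _ h1

/-- one double root -/
def IsDbl {κ : Type u} [CommRing κ] (m : ℕ) (a : κ) (c : Fin (m + 3) → κ) : Prop :=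
  ∃ (u : κ) (S : Finset κ), u ≠ 0 ∧ S.card = m ∧ a ∉ S ∧
    pol c = C u * ((X - C a) ^ 2 * ∏ b ∈ S, (X - C b))

theorem roots_dbl {κ : Type u} [Field κ] [DecidableEq κ] (u a : κ) (S : Finset κ) (hu : u ≠ 0) :
    (C u * ((X - C a) ^ 2 * ∏ b ∈ S, (X - C b))).roots = a ::ₘ a ::ₘ S.val := by
  have h1 : (∏ b ∈ S, (X - C b) : κ[X]) ≠ 0 := Finset.prod_ne_zero_iff.2 fun b _ => X_sub_C_ne_zero b
  rw [roots_C_mul _ hu, roots_mul (mul_ne_zero (pow_ne_zero 2 (X_sub_C_ne_zero a)) h1),
    roots_pow, roots_X_sub_C, roots_prod_X_sub_C, two_smul, add_assoc, Multiset.singleton_add,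
    Multiset.singleton_add]

theorem dbl_inj {κ : Type u} [Field κ] {u a u' a' : κ} {S S' : Finset κ} (hu : u ≠ 0)
    (hu' : u' ≠ 0) (haS : a ∉ S) (haS' : a' ∉ S')
    (h : C u * ((X - C a) ^ 2 * ∏ b ∈ S, (X - C b)) =
      C u' * ((X - C a') ^ 2 * ∏ b ∈ S', (X - C b))) : u = u' ∧ a = a' ∧ S = S' := by
  classical
  have h1 : a ::ₘ a ::ₘ S.val = a' ::ₘ a' ::ₘ S'.val := by
    rw [← roots_dbl u a S hu, ← roots_dbl u' a' S' hu', h]
  have h2 : a = a' := by
    by_contra hne
    have h3 := congrArg (Multiset.count a) h1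
    rw [Multiset.count_cons_self, Multiset.count_cons_self, Multiset.count_cons_of_ne hne,
      Multiset.count_cons_of_ne hne] at h3
    have h4 : S'.val.count a ≤ 1 := Multiset.nodup_iff_count_le_one.1 S'.nodup a
    omega
  subst h2
  have h3 : S = S' := by
    apply Finset.val_injective
    exact (Multiset.cons_inj_right a).1 ((Multiset.cons_inj_right a).1 h1)
  refine ⟨?_, rfl, h3⟩
  have h4 := congrArg leadingCoeff h
  have h5 : ∀ (w : κ) (T : Finset κ), (C w * ((X - C a) ^ 2 * ∏ b ∈ T, (X - C b))).leadingCoeff =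
      w := by
    intro w T
    have h6 : ((X - C a) ^ 2 * ∏ b ∈ T, (X - C b)).Monic :=
      ((monic_X_sub_C a).pow 2).mul (monic_prod_of_monic _ _ fun b _ => monic_X_sub_C b)
    rw [leadingCoeff_mul, h6.leadingCoeff, mul_one, leadingCoeff_C]
  rwa [h5, h5] at h4

theorem dbl_card (m : ℕ) (hm : 2 * m ≤ Nat.card κ) :
    (Nat.card κ - 1) * Nat.card κ ^ (m + 1) ≤
      2 ^ m * m.factorial * {c : Fin (m + 3) → κ | ∃ a, IsDbl m a c}.ncard := by
  classical
  have hFκ : Fintype κ := Fintype.ofFinite κ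
  set q := Nat.card κ with hq
  have hqF : Fintype.card κ = q := (Nat.card_eq_fintype_card).symm
  have hq2 : 2 ≤ q := Finite.one_lt_card
  let A : Finset (κˣ × (Σ a : κ, Finset κ)) := (Finset.univ : Finset κˣ) ×ˢ
    (Finset.univ : Finset κ).sigma fun a => Finset.powersetCard m ((Finset.univ : Finset κ).erase a)
  have hA : A.card = (q - 1) * (q * (q - 1).choose m) := by
    rw [Finset.card_product, Finset.card_univ, ← Nat.card_eq_fintype_card, Nat.card_units,
      Finset.card_sigma]
    congr 1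
    rw [Finset.sum_congr rfl (fun a _ => by
      rw [Finset.card_powersetCard, Finset.card_erase_of_mem (Finset.mem_univ a),
        Finset.card_univ, hqF]), Finset.sum_const, Finset.card_univ, hqF, smul_eq_mul]
  have h1 : A.card ≤ {c : Fin (m + 3) → κ | ∃ a, IsDbl m a c}.ncard := by
    rw [← Set.ncard_coe_finset]
    have hdeg : ∀ (u a : κ) (S : Finset κ), S.card = m →
        (C u * ((X - C a) ^ 2 * ∏ b ∈ S, (X - C b))).natDegree ≤ m + 2 := by
      intro u a S hS
      refine (natDegree_C_mul_le _ _).trans (natDegree_mul_le.trans ?_)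
      rw [natDegree_pow, natDegree_X_sub_C, natDegree_finset_prod_X_sub_C_eq_card, hS]
      omega
    have hmem : ∀ x : κˣ × (Σ a : κ, Finset κ), x ∈ (A : Set (κˣ × (Σ a : κ, Finset κ))) →
        x.2.2.card = m ∧ x.2.1 ∉ x.2.2 := by
      intro x hx
      have h2 := (Finset.mem_sigma.1 (Finset.mem_product.1 (Finset.mem_coe.1 hx)).2).2
      rw [Finset.mem_powersetCard] at h2
      exact ⟨h2.2, fun h => (Finset.mem_erase.1 (h2.1 h)).1 rfl⟩
    refine Set.ncard_le_ncard_of_injOn
      (fun x => fun i : Fin (m + 3) =>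
        (C (x.1 : κ) * ((X - C x.2.1) ^ 2 * ∏ b ∈ x.2.2, (X - C b))).coeff i) ?_ ?_ (Set.toFinite _)
    · intro x hx
      obtain ⟨h2, h3⟩ := hmem x hx
      exact ⟨x.2.1, x.1, x.2.2, x.1.ne_zero, h2, h3, pol_of _ (hdeg _ _ _ h2)⟩
    · intro x hx y hy hxy
      obtain ⟨h2, h3⟩ := hmem x hx
      obtain ⟨h4, h5⟩ := hmem y hy
      have h6 : C (x.1 : κ) * ((X - C x.2.1) ^ 2 * ∏ b ∈ x.2.2, (X - C b)) =
          C (y.1 : κ) * ((X - C y.2.1) ^ 2 * ∏ b ∈ y.2.2, (X - C b)) := by
        rw [← pol_of _ (hdeg (x.1 : κ) x.2.1 x.2.2 h2), ← pol_of _ (hdeg (y.1 : κ) y.2.1 y.2.2 h4)]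
        exact congrArg pol hxy
      obtain ⟨e1, e2, e3⟩ := dbl_inj x.1.ne_zero y.1.ne_zero h3 h5 h6
      obtain ⟨x1, x2, x3⟩ := x
      obtain ⟨y1, y2, y3⟩ := y
      simp only at e1 e2 e3
      subst e2
      subst e3
      rw [Units.ext e1]
  have h2 : q ^ m ≤ 2 ^ m * (m.factorial * (q - 1).choose m) := by
    have h3 : (q - 1 + 1 - m) ^ m ≤ (q - 1).descFactorial m := Nat.pow_sub_le_descFactorial _ _
    rw [Nat.descFactorial_eq_factorial_mul_choose] at h3
    calc q ^ m ≤ (2 * (q - 1 + 1 - m)) ^ m := Nat.pow_le_pow_left (by omega) m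
      _ = 2 ^ m * (q - 1 + 1 - m) ^ m := mul_pow _ _ _
      _ ≤ _ := Nat.mul_le_mul_left _ h3
  calc (q - 1) * q ^ (m + 1) = (q - 1) * q * q ^ m := by ring
    _ ≤ (q - 1) * q * (2 ^ m * (m.factorial * (q - 1).choose m)) := Nat.mul_le_mul_left _ h2
    _ = 2 ^ m * m.factorial * A.card := by rw [hA]; ring
    _ ≤ _ := Nat.mul_le_mul_left _ h1

end finite

end Pool.Agent.T6.H28.BB
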