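import Pool.Agent.TH377.Sup.Good
import Pool.Agent.T6.H28.BB.Cnt2

/-! # Counting the good vectors modulo the square of a prime -/

set_option autoImplicit false
set_option linter.all false

namespace Pool.Agent.T6.H28.BB

open Polynomial NumberField IsDedekindDomain Pool.Agent.TH120.Sec Pool.Agent.TH377.Sup

universe u

variable {K : Type u} [Field K] [NumberField K] (v : HeightOneSpectrum (𝓞 K))

theorem norm_ge_two : 2 ≤ Ideal.absNorm v.asIdeal := by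
  by_contra h
  have h3 : Ideal.absNorm v.asIdeal = 0 ∨ Ideal.absNorm v.asIdeal = 1 := by omega
  rcases h3 with h3 | h3
  · exact absurd h3 (Pool.Agent.W417.SecC.D2.norm_pos v).ne'
  · rw [Ideal.absNorm_eq_one_iff] at h3
    exact v.isPrime.ne_top h3

/-- the lifts of a set modulo the prime -/
theorem lift_card (k : ℕ) (A : Set (Fin k → 𝓞 K ⧸ v.asIdeal)) :
    A.ncard * Ideal.absNorm v.asIdeal ^ k ≤
      {x : Fin k → 𝓞 K ⧸ v.asIdeal ^ 2 | (fun i => pr v (x i)) ∈ A}.ncard := by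
  classical
  have hfin := finite_sq v
  have hfin' : Finite (𝓞 K ⧸ v.asIdeal) := Ideal.finiteQuotientOfFreeOfNeBot _ v.ne_bot
  set J : Set (𝓞 K ⧸ v.asIdeal ^ 2) := {x | pr v x = 0} with hJ
  have hJc : J.ncard = Ideal.absNorm v.asIdeal := ker_ncard v
  have hJp : (Set.pi Set.univ fun _ : Fin k => J).ncard = Ideal.absNorm v.asIdeal ^ k := by
    rw [← Nat.card_coe_set_eq, Nat.card_congr (Equiv.Set.univPi _), Nat.card_pi]
    simp only [Nat.card_coe_set_eq, hJc, Finset.prod_const, Finset.card_univ, Fintype.card_fin]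
  let s := Function.surjInv (pr_surj v)
  have hs : ∀ x, pr v (s x) = x := Function.surjInv_eq (pr_surj v)
  rw [← hJp, ← Set.ncard_prod]
  refine Set.ncard_le_ncard_of_injOn (fun x => fun i => s (x.1 i) + x.2 i) ?_ ?_ (Set.toFinite _)
  · rintro ⟨c, t⟩ ⟨hc, ht⟩
    have e1 : ∀ i, pr v (s (c i) + t i) = c i := by
      intro i
      rw [map_add, hs, show pr v (t i) = 0 from ht i (Set.mem_univ i), add_zero]
    change (fun i => pr v (s (c i) + t i)) ∈ A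
    simp only [e1]
    exact hc
  · rintro ⟨c, t⟩ ⟨hc, ht⟩ ⟨c', t'⟩ ⟨hc', ht'⟩ h
    have h1 : ∀ i, s (c i) + t i = s (c' i) + t' i := fun i => congrFun h i
    have e1 : c = c' := by
      funext i
      have := congrArg (pr v) (h1 i)
      rwa [map_add, map_add, hs, hs, show pr v (t i) = 0 from ht i (Set.mem_univ i),
        show pr v (t' i) = 0 from ht' i (Set.mem_univ i), add_zero, add_zero] at this
    subst e1
    have e2 : t = t' := by
      funext i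
      have := h1 i
      rwa [add_right_inj] at this
    rw [e2]

/-- a double root `a` modulo the prime, which is not a root modulo the square -/
def Dbl2 (m : ℕ) : Set (Fin (m + 3) → 𝓞 K ⧸ v.asIdeal ^ 2) :=
  {x | ∃ a, IsDbl m (pr v a) (fun i => pr v (x i)) ∧ (pol x).eval a ≠ 0}

theorem dbl2_card (m : ℕ) :
    {c : Fin (m + 3) → 𝓞 K ⧸ v.asIdeal | ∃ a, IsDbl m a c}.ncard *
      ((Ideal.absNorm v.asIdeal - 1) * Ideal.absNorm v.asIdeal ^ (m + 2)) ≤ (Dbl2 v m).ncard := by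
  classical
  have hfin := finite_sq v
  have hfin' : Finite (𝓞 K ⧸ v.asIdeal) := Ideal.finiteQuotientOfFreeOfNeBot _ v.ne_bot
  set J : Set (𝓞 K ⧸ v.asIdeal ^ 2) := {x | pr v x = 0} with hJ
  have hJc : J.ncard = Ideal.absNorm v.asIdeal := ker_ncard v
  have hJ0 : (J \ {0}).ncard = Ideal.absNorm v.asIdeal - 1 := by
    rw [Set.ncard_sdiff_singleton_of_mem (show (0 : 𝓞 K ⧸ v.asIdeal ^ 2) ∈ J from map_zero _), hJc]
  have hJp : (Set.pi Set.univ fun _ : Fin (m + 2) => J).ncard =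
      Ideal.absNorm v.asIdeal ^ (m + 2) := by
    rw [← Nat.card_coe_set_eq, Nat.card_congr (Equiv.Set.univPi _), Nat.card_pi]
    simp only [Nat.card_coe_set_eq, hJc, Finset.prod_const, Finset.card_univ, Fintype.card_fin]
  let s := Function.surjInv (pr_surj v)
  have hs : ∀ x, pr v (s x) = x := Function.surjInv_eq (pr_surj v)
  -- the double root
  let r : (Fin (m + 3) → 𝓞 K ⧸ v.asIdeal) → 𝓞 K ⧸ v.asIdeal := fun c =>
    if h : ∃ a, IsDbl m a c then h.choose else 0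
  have hr : ∀ c, (∃ a, IsDbl m a c) → IsDbl m (r c) c := by
    intro c hc
    change IsDbl m (dite _ _ _) c
    rw [dif_pos hc]
    exact hc.choose_spec
  have hr0 : ∀ c : Fin (m + 3) → 𝓞 K ⧸ v.asIdeal, IsDbl m (r c) c → (pol c).eval (r c) = 0 := by
    rintro c ⟨u, S, hu, hS, haS, h⟩
    rw [h]
    simp
  rw [← hJp, ← hJ0, ← Set.ncard_prod, ← Set.ncard_prod]
  -- the tail of a vector
  let w : (Fin (m + 3) → 𝓞 K ⧸ v.asIdeal) → (Fin (m + 2) → 𝓞 K ⧸ v.asIdeal ^ 2) →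
      (𝓞 K ⧸ v.asIdeal ^ 2) := fun c t =>
    ∑ i : Fin (m + 2), (s (c i.succ) + t i) * s (r c) ^ ((i : ℕ) + 1)
  refine Set.ncard_le_ncard_of_injOn
    (fun x => Fin.cons (x.2.1 - w x.1 x.2.2) fun i : Fin (m + 2) => s (x.1 i.succ) + x.2.2 i)
    ?_ ?_ (Set.toFinite _)
  · rintro ⟨c, j, t⟩ ⟨hc, hj, ht⟩
    have e1 : ∀ i, pr v (s (c (Fin.succ i)) + t i) = c i.succ := by
      intro i
      rw [map_add, hs, show pr v (t i) = 0 from ht i (Set.mem_univ i), add_zero]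
    have hc' := hr c hc
    have e2 : c 0 + ∑ i : Fin (m + 2), c i.succ * r c ^ ((i : ℕ) + 1) = 0 := by
      have h1 := hr0 c hc'
      rw [pol, eval_finsetSum, Fin.sum_univ_succ] at h1
      simpa using h1
    have e3 : pr v (j - w c t) = c 0 := by
      rw [map_sub, show pr v j = 0 from hj.1, map_sum]
      simp only [map_mul, map_pow, e1, hs]
      linear_combination -e2
    refine ⟨s (r c), ?_, ?_⟩
    · rw [hs]
      have e4 : (fun i => pr v ((Fin.cons (j - w c t) fun i : Fin (m + 2) =>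
          s (c i.succ) + t i : Fin (m + 3) → 𝓞 K ⧸ v.asIdeal ^ 2) i)) = c := by
        funext i
        refine Fin.cases ?_ (fun i => ?_) i
        · exact e3
        · exact e1 i
      exact e4.symm ▸ hc'
    · have e5 : (pol (Fin.cons (j - w c t) fun i : Fin (m + 2) =>
          s (c i.succ) + t i : Fin (m + 3) → 𝓞 K ⧸ v.asIdeal ^ 2)).eval (s (r c)) = j := by
        rw [pol, eval_finsetSum, Fin.sum_univ_succ]
        simp only [Fin.cons_zero, Fin.cons_succ, eval_mul, eval_C, eval_pow, eval_X, Fin.val_zero,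
          pow_zero, mul_one, Fin.val_succ]
        change j - w c t + w c t = j
        ring
      rw [e5]
      exact hj.2
  · rintro ⟨c, j, t⟩ ⟨hc, hj, ht⟩ ⟨c', j', t'⟩ ⟨hc', hj', ht'⟩ h
    have h0 : j - w c t = j' - w c' t' := congrFun h 0
    have h1 : ∀ i : Fin (m + 2), s (c i.succ) + t i = s (c' i.succ) + t' i :=
      fun i => congrFun h i.succ
    have e1 : ∀ i : Fin (m + 2), c i.succ = c' i.succ := by
      intro i
      have := congrArg (pr v) (h1 i)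
      rwa [map_add, map_add, hs, hs, show pr v (t i) = 0 from ht i (Set.mem_univ i),
        show pr v (t' i) = 0 from ht' i (Set.mem_univ i), add_zero, add_zero] at this
    have e2 : t = t' := by
      funext i
      have := h1 i
      rwa [e1, add_right_inj] at this
    subst e2
    have e3 : ∀ (c : Fin (m + 3) → 𝓞 K ⧸ v.asIdeal), (∃ a, IsDbl m a c) →
        ∀ j, pr v j = 0 → pr v (j - w c t) = c 0 := by
      intro c hc j hj
      have h3 := hr0 c (hr c hc)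
      rw [pol, eval_finsetSum, Fin.sum_univ_succ] at h3
      have h4 : c 0 + ∑ i : Fin (m + 2), c i.succ * r c ^ ((i : ℕ) + 1) = 0 := by simpa using h3
      rw [map_sub, hj, map_sum]
      simp only [map_mul, map_pow, map_add, hs,
        show ∀ i, pr v (t i) = 0 from fun i => ht i (Set.mem_univ i), add_zero]
      linear_combination -h4
    have e4 : c 0 = c' 0 := by
      have h3 := congrArg (pr v) h0
      rwa [e3 c hc j hj.1, e3 c' hc' j' hj'.1] at h3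
    have e5 : c = c' := by
      funext i
      refine Fin.cases e4 (fun i => e1 i) i
    subst e5
    rw [sub_left_inj] at h0
    rw [h0]

/-- the complement of a large set -/
theorem comp_bound (k : ℕ) (hk : 1 ≤ k) (S : Set (Fin k → 𝓞 K ⧸ v.asIdeal ^ 2)) (δ : ℝ)
    (h : δ * (((Ideal.absNorm v.asIdeal : ℝ) - 1) * (Ideal.absNorm v.asIdeal : ℝ) ^ (2 * k - 2)) ≤
      (S.ncard : ℝ)) :
    ((Sᶜ).ncard : ℝ) ≤ (1 - δ * (1 / (Ideal.absNorm v.asIdeal : ℝ) -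
      1 / (Ideal.absNorm v.asIdeal : ℝ) ^ 2)) * ((Ideal.absNorm v.asIdeal : ℝ) ^ 2) ^ k := by
  have hfin := finite_sq v
  have h2 : S.ncard + (Sᶜ).ncard = (Ideal.absNorm v.asIdeal ^ 2) ^ k := by
    rw [Set.ncard_add_ncard_compl, Nat.card_fun, Pool.Agent.W417.SecC.D2.card_sq, Nat.card_fin]
  have hN2 := norm_ge_two v
  set N := Ideal.absNorm v.asIdeal with hN
  have h3 : (S.ncard : ℝ) + ((Sᶜ).ncard : ℝ) = ((N : ℝ) ^ 2) ^ k := by
    exact_mod_cast h2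
  have hNr : (2 : ℝ) ≤ N := by exact_mod_cast hN2
  have hN0 : (N : ℝ) ≠ 0 := by linarith
  obtain ⟨k', rfl⟩ : ∃ k', k = k' + 1 := ⟨k - 1, by omega⟩
  have h4 : 2 * (k' + 1) - 2 = 2 * k' := by omega
  rw [h4] at h
  have h6 : (1 - δ * (1 / (N : ℝ) - 1 / (N : ℝ) ^ 2)) * ((N : ℝ) ^ 2) ^ (k' + 1) =
      ((N : ℝ) ^ 2) ^ (k' + 1) - δ * (((N : ℝ) - 1) * (N : ℝ) ^ (2 * k')) := by
    have h7 : ((N : ℝ) ^ 2) ^ (k' + 1) = (N : ℝ) ^ 2 * (N : ℝ) ^ (2 * k') := by ring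
    rw [h7]
    field_simp
  rw [h6]
  linarith

/-- irreducible modulo the prime -/
def Irr2 (n : ℕ) : Set (Fin (n + 1) → 𝓞 K ⧸ v.asIdeal ^ 2) :=
  {x | pr v (x (Fin.last n)) ≠ 0 ∧ Irreducible (pol fun i => pr v (x i))}

theorem irr2_bound (n : ℕ) (hn : 1 ≤ n) :
    (((Irr2 v n)ᶜ).ncard : ℝ) ≤ (1 - (1 / (2 * n) : ℝ) * (1 / (Ideal.absNorm v.asIdeal : ℝ) -
      1 / (Ideal.absNorm v.asIdeal : ℝ) ^ 2)) * ((Ideal.absNorm v.asIdeal : ℝ) ^ 2) ^ (n + 1) := by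
  have hmax : v.asIdeal.IsMaximal := v.isMaximal
  have hfin' : Finite (𝓞 K ⧸ v.asIdeal) := Ideal.finiteQuotientOfFreeOfNeBot _ v.ne_bot
  let _ : Field (𝓞 K ⧸ v.asIdeal) := Ideal.Quotient.field _
  refine comp_bound v (n + 1) (by omega) _ _ ?_
  have h1 := irr_card' (𝓞 K ⧸ v.asIdeal) n hn
  rw [card_residue] at h1
  have h2 := lift_card v (n + 1) (Irr (𝓞 K ⧸ v.asIdeal) n)
  have h2' : (Irr (𝓞 K ⧸ v.asIdeal) n).ncard * Ideal.absNorm v.asIdeal ^ (n + 1) ≤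
      (Irr2 v n).ncard := h2
  have hN2 := norm_ge_two v
  set N := Ideal.absNorm v.asIdeal with hN
  have hNr : (2 : ℝ) ≤ N := by exact_mod_cast hN2
  have hnr : (0 : ℝ) < n := by exact_mod_cast hn
  have h3 : ((N : ℝ) - 1) * (N : ℝ) ^ n ≤ 2 * n * ((Irr (𝓞 K ⧸ v.asIdeal) n).ncard : ℝ) := by
    have h5 : ((N - 1 : ℕ) : ℝ) = (N : ℝ) - 1 := by
      rw [Nat.cast_sub (by omega)]
      norm_num
    rw [← h5]
    exact_mod_cast h1
  have h4 : ((Irr (𝓞 K ⧸ v.asIdeal) n).ncard : ℝ) * (N : ℝ) ^ (n + 1) ≤ ((Irr2 v n).ncard : ℝ) := by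
    exact_mod_cast h2'
  have h5 : 2 * (n + 1) - 2 = n + n := by omega
  rw [h5]
  refine le_trans ?_ h4
  rw [one_div, inv_mul_le_iff₀ (by positivity)]
  have h6 : (N : ℝ) ^ n ≤ (N : ℝ) ^ (n + 1) := pow_le_pow_right₀ (by linarith) (by omega)
  calc ((N : ℝ) - 1) * (N : ℝ) ^ (n + n) = (((N : ℝ) - 1) * (N : ℝ) ^ n) * (N : ℝ) ^ n := by
        rw [pow_add]; ring
    _ ≤ (2 * n * ((Irr (𝓞 K ⧸ v.asIdeal) n).ncard : ℝ)) * (N : ℝ) ^ (n + 1) := by
        refine mul_le_mul h3 h6 (by positivity) (by positivity)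
    _ = _ := by ring

/-- a linear times an irreducible polynomial modulo the prime -/
def Two2 (d : ℕ) : Set (Fin (d + 2) → 𝓞 K ⧸ v.asIdeal ^ 2) :=
  {x | (fun i => pr v (x i)) ∈ TwoIrr (𝓞 K ⧸ v.asIdeal) d}

theorem two2_bound (d : ℕ) (hd : 2 ≤ d) :
    (((Two2 v d)ᶜ).ncard : ℝ) ≤ (1 - (1 / (2 * d) : ℝ) * (1 / (Ideal.absNorm v.asIdeal : ℝ) -
      1 / (Ideal.absNorm v.asIdeal : ℝ) ^ 2)) * ((Ideal.absNorm v.asIdeal : ℝ) ^ 2) ^ (d + 2) := by
  have hmax : v.asIdeal.IsMaximal := v.isMaximal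
  have hfin' : Finite (𝓞 K ⧸ v.asIdeal) := Ideal.finiteQuotientOfFreeOfNeBot _ v.ne_bot
  let _ : Field (𝓞 K ⧸ v.asIdeal) := Ideal.Quotient.field _
  refine comp_bound v (d + 2) (by omega) _ _ ?_
  have h1 := two_card (𝓞 K ⧸ v.asIdeal) d hd
  rw [card_residue] at h1
  have h2 := lift_card v (d + 2) (TwoIrr (𝓞 K ⧸ v.asIdeal) d)
  have h2' : (TwoIrr (𝓞 K ⧸ v.asIdeal) d).ncard * Ideal.absNorm v.asIdeal ^ (d + 2) ≤
      (Two2 v d).ncard := h2
  have hN2 := norm_ge_two v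
  set N := Ideal.absNorm v.asIdeal with hN
  have hNr : (2 : ℝ) ≤ N := by exact_mod_cast hN2
  have hdr : (0 : ℝ) < d := by
    have : 0 < d := by omega
    exact_mod_cast this
  have h3 : ((N : ℝ) - 1) * (N : ℝ) ^ (d + 1) ≤
      2 * d * ((TwoIrr (𝓞 K ⧸ v.asIdeal) d).ncard : ℝ) := by
    have h5 : ((N - 1 : ℕ) : ℝ) = (N : ℝ) - 1 := by
      rw [Nat.cast_sub (by omega)]
      norm_num
    rw [← h5]
    exact_mod_cast h1
  have h4 : ((TwoIrr (𝓞 K ⧸ v.asIdeal) d).ncard : ℝ) * (N : ℝ) ^ (d + 2) ≤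
      ((Two2 v d).ncard : ℝ) := by
    exact_mod_cast h2'
  have h5 : 2 * (d + 2) - 2 = (d + 1) + (d + 1) := by omega
  rw [h5]
  refine le_trans ?_ h4
  rw [one_div, inv_mul_le_iff₀ (by positivity)]
  have h6 : (N : ℝ) ^ (d + 1) ≤ (N : ℝ) ^ (d + 2) := pow_le_pow_right₀ (by linarith) (by omega)
  calc ((N : ℝ) - 1) * (N : ℝ) ^ ((d + 1) + (d + 1)) =
        (((N : ℝ) - 1) * (N : ℝ) ^ (d + 1)) * (N : ℝ) ^ (d + 1) := by
        rw [pow_add]; ring
    _ ≤ (2 * d * ((TwoIrr (𝓞 K ⧸ v.asIdeal) d).ncard : ℝ)) * (N : ℝ) ^ (d + 2) := by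
        refine mul_le_mul h3 h6 (by positivity) (by positivity)
    _ = _ := by ring

theorem dbl2_bound (m : ℕ) (hm : 2 * m ≤ Ideal.absNorm v.asIdeal) :
    (((Dbl2 v m)ᶜ).ncard : ℝ) ≤ (1 - (1 / (2 ^ (m + 1) * m.factorial) : ℝ) *
      (1 / (Ideal.absNorm v.asIdeal : ℝ) -
      1 / (Ideal.absNorm v.asIdeal : ℝ) ^ 2)) * ((Ideal.absNorm v.asIdeal : ℝ) ^ 2) ^ (m + 3) := by
  have hmax : v.asIdeal.IsMaximal := v.isMaximal
  have hfin' : Finite (𝓞 K ⧸ v.asIdeal) := Ideal.finiteQuotientOfFreeOfNeBot _ v.ne_bot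
  let _ : Field (𝓞 K ⧸ v.asIdeal) := Ideal.Quotient.field _
  refine comp_bound v (m + 3) (by omega) _ _ ?_
  have h1 := dbl_card (𝓞 K ⧸ v.asIdeal) m (by rw [card_residue]; exact hm)
  rw [card_residue] at h1
  have h2 := dbl2_card v m
  have hN2 := norm_ge_two v
  set A := {c : Fin (m + 3) → 𝓞 K ⧸ v.asIdeal | ∃ a, IsDbl m a c}.ncard with hA
  set N := Ideal.absNorm v.asIdeal with hN
  have hNr : (2 : ℝ) ≤ N := by exact_mod_cast hN2
  have h5 : ((N - 1 : ℕ) : ℝ) = (N : ℝ) - 1 := by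
    rw [Nat.cast_sub (by omega)]
    norm_num
  have h3 : ((N : ℝ) - 1) * (N : ℝ) ^ (m + 1) ≤ 2 ^ m * m.factorial * (A : ℝ) := by
    rw [← h5]
    exact_mod_cast h1
  have h4 : (A : ℝ) * (((N : ℝ) - 1) * (N : ℝ) ^ (m + 2)) ≤ ((Dbl2 v m).ncard : ℝ) := by
    rw [← h5]
    exact_mod_cast h2
  have h6 : 2 * (m + 3) - 2 = 2 * m + 4 := by omega
  rw [h6]
  refine le_trans ?_ h4
  have hfac : (0 : ℝ) < m.factorial := by exact_mod_cast m.factorial_pos
  rw [one_div, inv_mul_le_iff₀ (by positivity)]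
  have h7 : (N : ℝ) ≤ 2 * ((N : ℝ) - 1) := by linarith
  have h8 : 0 ≤ (N : ℝ) - 1 := by linarith
  calc ((N : ℝ) - 1) * (N : ℝ) ^ (2 * m + 4) =
        (N : ℝ) * ((((N : ℝ) - 1) * (N : ℝ) ^ (m + 1)) * (N : ℝ) ^ (m + 2)) := by ring
    _ ≤ (2 * ((N : ℝ) - 1)) * ((2 ^ m * m.factorial * (A : ℝ)) * (N : ℝ) ^ (m + 2)) := by
        refine mul_le_mul h7 (mul_le_mul_of_nonneg_right h3 (by positivity)) (by positivity)
          (by positivity)
    _ = _ := by ring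

end Pool.Agent.T6.H28.BB
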