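import Pool.Agent.T6.H28.PadE

/-! # Two roots which collide at a `p`-adic place -/

set_option autoImplicit false
set_option linter.all false

open Polynomial

namespace Pool.Agent.T6.H28.BB

variable {p : ℕ} [hp : Fact p.Prime]

theorem norm_aut (σ : PadicAlgCl p ≃ₐ[ℚ_[p]] PadicAlgCl p) (z : PadicAlgCl p) : ‖σ z‖ = ‖z‖ := by
  have h1 := spectralNorm.spectralNorm_eq_norm_coeff_zero_rpow (K := ℚ_[p]) (L := PadicAlgCl p) z
  have h2 := spectralNorm.spectralNorm_eq_norm_coeff_zero_rpow (K := ℚ_[p]) (L := PadicAlgCl p) (σ z)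
  have h3 : minpoly ℚ_[p] (σ z) = minpoly ℚ_[p] z := minpoly.algEquiv_eq σ z
  rw [h3] at h2
  exact h2.trans h1.symm

theorem norm_autE {E : IntermediateField ℚ_[p] (PadicAlgCl p)}
    (σ : PadicAlgCl p ≃ₐ[E] PadicAlgCl p) (z : PadicAlgCl p) : ‖σ z‖ = ‖z‖ :=
  norm_aut (σ.restrictScalars ℚ_[p]) z

theorem fixed_mem (E : IntermediateField ℚ_[p] (PadicAlgCl p)) (z : PadicAlgCl p)
    (h : ∀ σ : PadicAlgCl p ≃ₐ[E] PadicAlgCl p, σ z = z) : z ∈ E := by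
  haveI : Algebra.IsAlgebraic E (PadicAlgCl p) := Algebra.IsAlgebraic.tower_top (K := ℚ_[p]) E
  haveI : IsGalois E (PadicAlgCl p) := by
    haveI : IsAlgClosure E (PadicAlgCl p) := ⟨inferInstance, inferInstance⟩
    exact {}
  have h1 := (InfiniteGalois.mem_bot_iff_fixed (k := E) z).2 h
  rw [IntermediateField.mem_bot] at h1
  obtain ⟨y, hy⟩ := h1
  rw [← hy]
  exact y.2

theorem norm_add_lt {x y : PadicAlgCl p} (h : ‖y‖ < ‖x‖) : ‖x + y‖ = ‖x‖ := by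
  rw [IsUltrametricDist.norm_add_eq_max_of_norm_ne_norm h.ne', max_eq_left h.le]

theorem norm_sub_lt {x y : PadicAlgCl p} (h : ‖y‖ < ‖x‖) : ‖x - y‖ = ‖x‖ := by
  rw [sub_eq_add_neg]
  exact norm_add_lt (by rwa [norm_neg])

theorem norm_sub_max (x y : PadicAlgCl p) : ‖x - y‖ ≤ max ‖x‖ ‖y‖ := by
  rw [sub_eq_add_neg, ← norm_neg y]
  exact IsUltrametricDist.norm_add_le_max _ _

theorem norm_sub_le {x y : PadicAlgCl p} {r : ℝ} (hx : ‖x‖ ≤ r) (hy : ‖y‖ ≤ r) : ‖x - y‖ ≤ r :=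
  (norm_sub_max x y).trans (max_le hx hy)

theorem norm_sub_lt' {x y : PadicAlgCl p} {r : ℝ} (hx : ‖x‖ < r) (hy : ‖y‖ < r) : ‖x - y‖ < r :=
  (norm_sub_max x y).trans_lt (max_lt hx hy)

theorem norm_two (hp2 : p ≠ 2) : ‖(2 : PadicAlgCl p)‖ = 1 := by
  have h1 : (2 : PadicAlgCl p) = algebraMap ℚ_[p] (PadicAlgCl p) ((2 : ℕ) : ℚ_[p]) := by
    rw [map_natCast]; rfl
  rw [h1, PadicAlgCl.norm_extends, Padic.norm_natCast_eq_one_iff]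
  exact (Nat.coprime_primes hp.out Nat.prime_two).2 hp2

/-- elements of small norm are at most as large as the uniformiser -/
theorem le_unif {E : IntermediateField ℚ_[p] (PadicAlgCl p)} {ϖ : PadicAlgCl p}
    (hϖ0 : ϖ ≠ 0) (hϖ1 : ‖ϖ‖ < 1) (hval : ∀ e ∈ E, e ≠ 0 → ∃ m : ℤ, ‖e‖ = ‖ϖ‖ ^ m)
    {e : PadicAlgCl p} (he : e ∈ E) (he1 : ‖e‖ < 1) : ‖e‖ ≤ ‖ϖ‖ := by
  have hϖp : 0 < ‖ϖ‖ := norm_pos_iff.2 hϖ0
  rcases eq_or_ne e 0 with h0 | h0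
  · rw [h0, norm_zero]
    exact norm_nonneg _
  obtain ⟨m, hm⟩ := hval e he h0
  have hm1 : 1 ≤ m := by
    by_contra h
    have h2 : m ≤ 0 := by omega
    have h3 : (1 : ℝ) ≤ ‖ϖ‖ ^ m := by
      obtain ⟨n, hn⟩ := Int.eq_ofNat_of_zero_le (show 0 ≤ -m by omega)
      have h4 : m = -(n : ℤ) := by omega
      rw [h4, zpow_neg, zpow_natCast]
      exact (one_le_inv₀ (pow_pos hϖp n)).2 (pow_le_one₀ hϖp.le hϖ1.le)
    rw [hm] at he1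
    linarith
  rw [hm]
  calc ‖ϖ‖ ^ m ≤ ‖ϖ‖ ^ (1 : ℤ) := zpow_le_zpow_right_of_le_one₀ hϖp hϖ1.le hm1
    _ = ‖ϖ‖ := zpow_one _

theorem coll_core (hp2 : p ≠ 2) (E : IntermediateField ℚ_[p] (PadicAlgCl p))
    [FiniteDimensional ℚ_[p] E] (ϖ : PadicAlgCl p) (hϖE : ϖ ∈ E) (hϖ0 : ϖ ≠ 0) (hϖ1 : ‖ϖ‖ < 1)
    (hval : ∀ e ∈ E, e ≠ 0 → ∃ m : ℤ, ‖e‖ = ‖ϖ‖ ^ m)
    (Z : Finset (PadicAlgCl p)) (hZ : ∀ σ : PadicAlgCl p ≃ₐ[E] PadicAlgCl p, ∀ z ∈ Z, σ z ∈ Z)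
    (z₁ z₂ a : PadicAlgCl p) (h1 : z₁ ∈ Z) (h2 : z₂ ∈ Z) (h12 : z₁ ≠ z₂) (ha : a ∈ E)
    (ha1 : ‖z₁ - a‖ < 1) (ha2 : ‖z₂ - a‖ < 1) (hpr : ‖z₁ - a‖ * ‖z₂ - a‖ = ‖ϖ‖)
    (hoth : ∀ z ∈ Z, z ≠ z₁ → z ≠ z₂ → ‖z - a‖ = 1 ∧
      ∃ b ∈ E, ‖z - b‖ < 1 ∧ ∀ z' ∈ Z, z' ≠ z → ‖z' - b‖ = 1) :
    ‖z₁ - z₂‖ < 1 ∧ ∃ E' : IntermediateField ℚ_[p] (PadicAlgCl p), FiniteDimensional ℚ_[p] E' ∧
      E ≤ E' ∧ (∀ z ∈ Z, z ∈ E') ∧ ∀ ℓ : ℕ, 2 ≤ ℓ → ¬ ∃ e ∈ E', ‖z₁ - z₂‖ = ‖e‖ ^ ℓ := by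
  classical
  have hϖp : 0 < ‖ϖ‖ := norm_pos_iff.2 hϖ0
  have hE : ∀ (σ : PadicAlgCl p ≃ₐ[E] PadicAlgCl p) (e : PadicAlgCl p), e ∈ E → σ e = e :=
    fun σ e he => σ.commutes ⟨e, he⟩
  have hdist : ∀ (σ : PadicAlgCl p ≃ₐ[E] PadicAlgCl p) (z e : PadicAlgCl p), e ∈ E →
      ‖σ z - e‖ = ‖z - e‖ := by
    intro σ z e he
    rw [← norm_autE σ (z - e), map_sub, hE σ e he]
  have hcl : ∀ z ∈ Z, z ≠ z₁ → z ≠ z₂ → z ∈ E := by
    intro z hz hz1 hz2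
    obtain ⟨-, b, hb, hb1, hb2⟩ := hoth z hz hz1 hz2
    refine fixed_mem E z fun σ => ?_
    by_contra hne
    have h3 := hb2 (σ z) (hZ σ z hz) hne
    rw [hdist σ z b hb] at h3
    linarith
  have hsw : ∀ (σ : PadicAlgCl p ≃ₐ[E] PadicAlgCl p), ∀ z ∈ Z, ‖z - a‖ < 1 →
      σ z = z₁ ∨ σ z = z₂ := by
    intro σ z hz hza
    by_contra h
    push Not at h
    have h3 := (hoth (σ z) (hZ σ z hz) h.1 h.2).1
    rw [hdist σ z a ha] at h3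
    linarith
  have hz1a : z₁ - a ≠ 0 := by
    intro h
    rw [h, norm_zero, zero_mul] at hpr
    exact hϖp.ne hpr
  have hnot : ∃ σ : PadicAlgCl p ≃ₐ[E] PadicAlgCl p, σ z₁ ≠ z₁ := by
    by_contra h
    push Not at h
    have e1 : z₁ ∈ E := fixed_mem E z₁ h
    have e2 : z₂ ∈ E := by
      refine fixed_mem E z₂ fun σ => ?_
      rcases hsw σ z₂ h2 ha2 with h3 | h3
      · exact absurd (σ.injective (h3.trans (h σ).symm)) h12.symm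
      · exact h3
    have e3 := le_unif hϖ0 hϖ1 hval (sub_mem e1 ha) ha1
    have e4 := le_unif hϖ0 hϖ1 hval (sub_mem e2 ha) ha2
    have e5 : ‖z₁ - a‖ * ‖z₂ - a‖ ≤ ‖ϖ‖ * ‖ϖ‖ :=
      mul_le_mul e3 e4 (norm_nonneg _) (norm_nonneg _)
    nlinarith
  obtain ⟨σ₀, hσ₀⟩ := hnot
  have hσ1 : σ₀ z₁ = z₂ := (hsw σ₀ z₁ h1 ha1).resolve_left hσ₀
  have hσ2 : σ₀ z₂ = z₁ := by
    rcases hsw σ₀ z₂ h2 ha2 with h3 | h3
    · exact h3
    · exact absurd (σ₀.injective (hσ1.trans h3.symm)) h12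
  have hr : ‖z₂ - a‖ = ‖z₁ - a‖ := by rw [← hσ1, hdist σ₀ z₁ a ha]
  rw [hr] at hpr
  have hrp : 0 < ‖z₁ - a‖ := norm_pos_iff.2 hz1a
  have hperm : ∀ (σ : PadicAlgCl p ≃ₐ[E] PadicAlgCl p),
      (σ z₁ = z₁ ∧ σ z₂ = z₂) ∨ (σ z₁ = z₂ ∧ σ z₂ = z₁) := by
    intro σ
    rcases hsw σ z₁ h1 ha1 with h3 | h3 <;> rcases hsw σ z₂ h2 ha2 with h4 | h4
    · exact absurd (σ.injective (h3.trans h4.symm)) h12
    · exact Or.inl ⟨h3, h4⟩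
    · exact Or.inr ⟨h3, h4⟩
    · exact absurd (σ.injective (h3.trans h4.symm)) h12
  have h2E : (2 : PadicAlgCl p) ∈ E := by
    have := natCast_mem E 2
    exact_mod_cast this
  have hs : z₁ + z₂ - 2 * a ∈ E := by
    refine fixed_mem E _ fun σ => ?_
    rw [map_sub, map_add, map_mul, hE σ a ha, hE σ 2 h2E]
    rcases hperm σ with ⟨h3, h4⟩ | ⟨h3, h4⟩
    · rw [h3, h4]
    · rw [h3, h4, add_comm]
  have hsr : ‖z₁ + z₂ - 2 * a‖ < ‖z₁ - a‖ := by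
    have e1 : ‖z₁ + z₂ - 2 * a‖ ≤ ‖z₁ - a‖ := by
      have e2 : z₁ + z₂ - 2 * a = (z₁ - a) + (z₂ - a) := by ring
      rw [e2]
      refine (IsUltrametricDist.norm_add_le_max _ _).trans (max_le le_rfl hr.le)
    have e3 := le_unif hϖ0 hϖ1 hval hs (e1.trans_lt ha1)
    have e4 : ‖ϖ‖ < ‖z₁ - a‖ := by nlinarith
    exact e3.trans_lt e4
  have hz12 : ‖z₁ - z₂‖ = ‖z₁ - a‖ := by
    have e1 : z₁ - z₂ = 2 * (z₁ - a) - (z₁ + z₂ - 2 * a) := by ring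
    have e2 : ‖2 * (z₁ - a)‖ = ‖z₁ - a‖ := by rw [norm_mul, norm_two hp2, one_mul]
    rw [e1, norm_sub_lt (by rwa [e2]), e2]
  refine ⟨by rw [hz12]; exact ha1, ?_⟩
  haveI hfd : FiniteDimensional E (IntermediateField.adjoin E {z₁}) :=
    IntermediateField.adjoin.finiteDimensional (Algebra.IsIntegral.tower_top (R := ℚ_[p])
      |>.isIntegral z₁)
  have hz1E : z₁ ∈ IntermediateField.adjoin E {z₁} := IntermediateField.mem_adjoin_simple_self E z₁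
  have hEE : ∀ e ∈ E, e ∈ IntermediateField.adjoin E {z₁} := fun e he =>
    (IntermediateField.adjoin E {z₁}).algebraMap_mem ⟨e, he⟩
  refine ⟨(IntermediateField.adjoin E {z₁}).restrictScalars ℚ_[p], ?_, ?_, ?_, ?_⟩
  · haveI : FiniteDimensional ℚ_[p] (IntermediateField.adjoin E {z₁}) :=
      Module.Finite.trans E _
    exact this
  · intro e he
    exact hEE e he
  · intro z hz
    by_cases hz1 : z = z₁
    · rw [hz1]
      exact hz1E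
    by_cases hz2 : z = z₂
    · have e1 : z = (z₁ + z₂ - 2 * a) + 2 * a - z₁ := by rw [hz2]; ring
      rw [e1]
      exact sub_mem (add_mem (hEE _ hs) (mul_mem (hEE _ h2E) (hEE _ ha))) hz1E
    · exact hEE z (hcl z hz hz1 hz2)
  · rintro ℓ hℓ ⟨e, he, hze⟩
    have he' : e ∈ IntermediateField.adjoin E {z₁} := he
    have hagree : ∀ τ τ' : PadicAlgCl p ≃ₐ[E] PadicAlgCl p, τ z₁ = τ' z₁ →
        ∀ e ∈ IntermediateField.adjoin E {z₁}, τ e = τ' e := by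
      intro τ τ' hττ e he
      induction he using IntermediateField.adjoin_induction with
      | mem x hx =>
        rw [Set.mem_singleton_iff] at hx
        rw [hx, hττ]
      | algebraMap x => rw [τ.commutes, τ'.commutes]
      | add x y _ _ hx hy => rw [map_add, map_add, hx, hy]
      | inv x _ hx => rw [map_inv₀, map_inv₀, hx]
      | mul x y _ _ hx hy => rw [map_mul, map_mul, hx, hy]
    have hid : ∀ τ : PadicAlgCl p ≃ₐ[E] PadicAlgCl p, τ z₁ = z₁ →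
        ∀ e ∈ IntermediateField.adjoin E {z₁}, τ e = e := fun τ hτ e he =>
      hagree τ AlgEquiv.refl hτ e he
    have hN : e * σ₀ e ∈ E := by
      refine fixed_mem E _ fun τ => ?_
      rw [map_mul]
      rcases hperm τ with ⟨h3, h4⟩ | ⟨h3, h4⟩
      · rw [hid τ h3 e he']
        have e1 : (τ * σ₀) z₁ = σ₀ z₁ := by
          rw [AlgEquiv.mul_apply, hσ1, h4]
        have e2 := hagree (τ * σ₀) σ₀ e1 e he'
        rw [AlgEquiv.mul_apply] at e2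
        rw [e2]
      · have e1 : τ z₁ = σ₀ z₁ := by rw [h3, hσ1]
        rw [hagree τ σ₀ e1 e he']
        have e3 : (τ * σ₀) z₁ = z₁ := by
          rw [AlgEquiv.mul_apply, hσ1, h4]
        have e2 := hid (τ * σ₀) e3 e he'
        rw [AlgEquiv.mul_apply] at e2
        rw [e2, mul_comm]
    have hN1 : ‖e * σ₀ e‖ = ‖e‖ ^ 2 := by rw [norm_mul, norm_autE, sq]
    have he0 : e ≠ 0 := by
      rintro rfl
      rw [norm_zero, zero_pow (by omega), hz12] at hze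
      exact hrp.ne' hze
    have hN0 : e * σ₀ e ≠ 0 := by
      rw [← norm_pos_iff, hN1]
      exact pow_pos (norm_pos_iff.2 he0) 2
    obtain ⟨m, hm⟩ := hval _ hN hN0
    have h5 : ‖ϖ‖ = ‖ϖ‖ ^ (m * ℓ) := by
      rw [zpow_mul, ← hm, hN1, zpow_natCast, ← hpr, ← hz12, hze]
      ring
    have h6 : ‖ϖ‖ ^ (m * ℓ) = ‖ϖ‖ ^ (1 : ℤ) := by rw [← h5, zpow_one]
    have h7 : m * ℓ = 1 := zpow_right_injective₀ hϖp hϖ1.ne h6
    have h8 : (ℓ : ℤ) ∣ 1 := ⟨m, by linarith⟩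
    have h9 : ℓ ∣ 1 := by exact_mod_cast h8
    have h10 := Nat.dvd_one.1 h9
    omega

end Pool.Agent.T6.H28.BB
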