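import Pool.Agent.Y715.CS.Plc
import Pool.Agent.W858.SF.Comp

/-! # The completions of a number field inside the algebraic closure of `ℚ_p` -/

set_option autoImplicit false

open NumberField IsDedekindDomain Filter Topology

namespace Pool.Agent.T6.H28.BB

open Pool.Agent.W858.SF (vv)

variable {L : Type} [Field L] [NumberField L] (v : HeightOneSpectrum (𝓞 L))

theorem exists_iota : ∃ (p : ℕ) (_ : Fact p.Prime) (ι : v.adicCompletion L →+* PadicAlgCl p)
    (E : IntermediateField ℚ_[p] (PadicAlgCl p)), (p : 𝓞 L) ∈ v.asIdeal ∧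
    FiniteDimensional ℚ_[p] E ∧ (∀ x, x ∈ E ↔ ∃ y, ι y = x) ∧
    (∀ x, vv v x < 1 → ‖ι x‖ < 1) ∧ (∀ x, vv v x ≤ 1 → ‖ι x‖ ≤ 1) := by
  obtain ⟨p, hp, hpv⟩ := Pool.Agent.Y682.exists_prime_mem v
  haveI : Fact p.Prime := ⟨hp⟩
  let ψ := Pool.Agent.Y682.pth hpv
  letI i1 : Algebra ℚ_[p] (v.adicCompletion L) := ψ.toAlgebra
  haveI : Module.Finite ℚ_[p] (v.adicCompletion L) := Pool.Agent.Y715.CS.pth_alg hpv
  haveI : Algebra.IsAlgebraic ℚ_[p] (v.adicCompletion L) := Algebra.IsAlgebraic.of_finite _ _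
  haveI : ContinuousSMul ℚ_[p] (v.adicCompletion L) := by
    refine ⟨?_⟩
    have : (fun x : ℚ_[p] × v.adicCompletion L => x.1 • x.2) = fun x => ψ x.1 * x.2 := by
      funext x
      exact Algebra.smul_def _ _
    rw [this]
    exact ((Pool.Agent.Y715.CS.pth_cont hpv).comp continuous_fst).mul continuous_snd
  let ι : v.adicCompletion L →ₐ[ℚ_[p]] PadicAlgCl p := IsAlgClosed.lift
  have hc : Continuous ι := LinearMap.continuous_of_finiteDimensional ι.toLinearMap
  have h1 : ∀ x, vv v x < 1 → ‖ι x‖ < 1 := by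
    intro x hx
    have h2 : Tendsto (fun n : ℕ => x ^ n) atTop (𝓝 0) := Valued.tendsto_zero_pow_of_v_lt_one hx
    have h3 := (hc.tendsto 0).comp h2
    rw [map_zero] at h3
    have h4 : Tendsto (fun n : ℕ => ‖ι x‖ ^ n) atTop (𝓝 0) := by
      have h5 := h3.norm
      rw [norm_zero] at h5
      refine h5.congr fun n => ?_
      simp only [Function.comp, map_pow, norm_pow]
    by_contra h6
    rw [not_lt] at h6
    have h7 : ∀ n : ℕ, (1 : ℝ) ≤ ‖ι x‖ ^ n := fun n => one_le_pow₀ h6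
    have h8 := ge_of_tendsto' h4 h7
    linarith
  refine ⟨p, ⟨hp⟩, ι.toRingHom, ι.fieldRange, hpv, ?_, fun x => ?_, h1, fun x hx => ?_⟩
  · exact Module.Finite.equiv (AlgEquiv.ofInjectiveField ι).toLinearEquiv
  · exact AlgHom.mem_fieldRange
  · obtain ⟨π, hπ⟩ := v.valuation_exists_uniformizer L
    have hπ1 : vv v (algebraMap L (v.adicCompletion L) π) < 1 := by
      rw [Pool.Agent.W858.SF.vv_algebraMap, hπ, ← WithZero.exp_zero, WithZero.exp_lt_exp]
      norm_num
    have hπ0 : algebraMap L (v.adicCompletion L) π ≠ 0 := by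
      intro h
      rw [map_eq_zero] at h
      rw [h, map_zero] at hπ
      exact WithZero.exp_ne_zero hπ.symm
    by_contra h6
    rw [not_le] at h6
    replace h6 : 1 < ‖ι x‖ := h6
    have h7 : ∀ n : ℕ, ‖ι x‖ ^ n * ‖ι (algebraMap L (v.adicCompletion L) π)‖ < 1 := by
      intro n
      have h8 := h1 (x ^ n * algebraMap L (v.adicCompletion L) π) (by
        rw [map_mul, map_pow]
        exact (mul_le_mul' (pow_le_one₀ zero_le hx) le_rfl).trans_lt (by rwa [one_mul]))
      rwa [map_mul, map_pow, norm_mul, norm_pow] at h8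
    have h8 : 0 < ‖ι (algebraMap L (v.adicCompletion L) π)‖ :=
      norm_pos_iff.2 ((map_ne_zero ι).2 hπ0)
    obtain ⟨n, hn⟩ := pow_unbounded_of_one_lt (‖ι (algebraMap L (v.adicCompletion L) π)‖)⁻¹ h6
    have h9 := h7 n
    rw [inv_lt_iff_one_lt_mul₀ h8] at hn
    linarith [mul_comm (‖ι x‖ ^ n) ‖ι (algebraMap L (v.adicCompletion L) π)‖]

end Pool.Agent.T6.H28.BB
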