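import Pool.Agent.T6.H28.GraphE

/-! # Linked polynomials from transitivity and one collision -/

set_option autoImplicit false
set_option linter.all false

namespace Pool.Agent.T6.H28.BB

open Polynomial Pool.Agent.T6.H28.Fin

variable {k : Type} [Field k]

theorem coll_conj (ℓ : ℕ) (f D : k[X]) (a a' : AlgebraicClosure k)
    (σ : AlgebraicClosure k ≃ₐ[k] AlgebraicClosure k) (h : Coll ℓ f D a a') :
    Coll ℓ f D (σ a) (σ a') := by
  obtain ⟨p, hp, hℓp, j, ⟨hj1, hj2, hj3⟩, hlc, hint, hoth, hcl, E, hE, hkE, hDE, hno⟩ := h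
  have hroot : ∀ (g : k[X]) (b : AlgebraicClosure k), aeval b g = 0 → aeval (σ.symm b) g = 0 := by
    intro g b hb
    have h1 := aeval_algHom_apply (σ.symm : AlgebraicClosure k →ₐ[k] AlgebraicClosure k) b g
    rw [hb, map_zero] at h1
    exact h1
  have hk : ∀ c : k, (j.comp (σ.symm : AlgebraicClosure k →+* AlgebraicClosure k))
      (algebraMap k (AlgebraicClosure k) c) = j (algebraMap k (AlgebraicClosure k) c) := by
    intro c
    change j (σ.symm (algebraMap k (AlgebraicClosure k) c)) = _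
    rw [σ.symm.commutes]
  have hj : ∀ b, (j.comp (σ.symm : AlgebraicClosure k →+* AlgebraicClosure k)) b = j (σ.symm b) :=
    fun b => rfl
  refine ⟨p, hp, hℓp, j.comp (σ.symm : AlgebraicClosure k →+* AlgebraicClosure k), ⟨?_, ?_, ?_⟩,
    ?_, ?_, ?_, ?_, E, hE, ?_, ?_, ?_⟩
  · rw [hk]
    exact hj1
  · intro e he
    exact hj2 _ (hroot f e he)
  · intro e e' he he' hne
    exact hj3 _ _ (hroot f e he) (hroot f e' he') (fun h => hne (σ.symm.injective h))
  · rw [hk]
    exact hlc
  · intro b hb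
    exact hint _ (hroot D b hb)
  · intro b hb hb1 hb2
    rw [hj, hj, σ.symm_apply_apply]
    refine hoth _ (hroot D b hb) ?_ ?_
    · intro h
      apply hb1
      rw [← h, σ.apply_symm_apply]
    · intro h
      apply hb2
      rw [← h, σ.apply_symm_apply]
  · rw [hj, hj, σ.symm_apply_apply, σ.symm_apply_apply]
    exact hcl
  · intro c
    rw [hk]
    exact hkE c
  · intro b hb
    exact hDE _ (hroot D b hb)
  · rw [hj, hj, σ.symm_apply_apply, σ.symm_apply_apply]
    exact hno

/-- the stabiliser of a root acts transitively on the others -/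
def Two (D : k[X]) : Prop :=
  ∃ b₀ : AlgebraicClosure k, aeval b₀ D = 0 ∧
    ∀ b' b'' : AlgebraicClosure k, aeval b' D = 0 → aeval b'' D = 0 → b' ≠ b₀ → b'' ≠ b₀ →
      ∃ σ : AlgebraicClosure k ≃ₐ[k] AlgebraicClosure k, σ b₀ = b₀ ∧ σ b' = b''

theorem exists_root (D : k[X]) (hirr : Irreducible D) : ∃ b : AlgebraicClosure k, aeval b D = 0 := by
  refine IsAlgClosed.exists_aeval_eq_zero (AlgebraicClosure k) D ?_
  exact (degree_pos_of_irreducible hirr).ne'

theorem two_small (D : k[X]) (hirr : Irreducible D) (hdeg : D.natDegree ≤ 2) : Two D := by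
  classical
  obtain ⟨b₀, hb₀⟩ := exists_root D hirr
  refine ⟨b₀, hb₀, fun b' b'' hb' hb'' h' h'' => ⟨AlgEquiv.refl, rfl, ?_⟩⟩
  change b' = b''
  by_contra hne
  have hD0 : D.map (algebraMap k (AlgebraicClosure k)) ≠ 0 :=
    (Polynomial.map_ne_zero_iff (algebraMap k (AlgebraicClosure k)).injective).2 hirr.ne_zero
  have hm : ∀ b, aeval b D = 0 → b ∈ (D.map (algebraMap k (AlgebraicClosure k))).roots.toFinset := by
    intro b hb
    rw [Multiset.mem_toFinset, mem_roots hD0, IsRoot.def, eval_map_algebraMap, hb]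
  have h1 : ({b₀, b', b''} : Finset (AlgebraicClosure k)).card = 3 := by
    rw [Finset.card_eq_three]
    exact ⟨b₀, b', b'', h'.symm, h''.symm, hne, rfl⟩
  have h2 : ({b₀, b', b''} : Finset (AlgebraicClosure k)) ⊆
      (D.map (algebraMap k (AlgebraicClosure k))).roots.toFinset := by
    intro b hb
    rw [Finset.mem_insert, Finset.mem_insert, Finset.mem_singleton] at hb
    rcases hb with rfl | rfl | rfl
    · exact hm _ hb₀
    · exact hm _ hb'
    · exact hm _ hb''
  have h3 := (Finset.card_le_card h2).trans ((Multiset.toFinset_card_le _).trans (card_roots' _))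
  rw [h1, natDegree_map] at h3
  omega

theorem trans_roots (D : k[X]) (hirr : Irreducible D) (b b' : AlgebraicClosure k)
    (hb : aeval b D = 0) (hb' : aeval b' D = 0) :
    ∃ σ : AlgebraicClosure k ≃ₐ[k] AlgebraicClosure k, σ b = b' := by
  have h1 := minpoly.eq_of_irreducible hirr hb
  have h2 := minpoly.eq_of_irreducible hirr hb'
  have h3 : IsConjRoot k b' b := by
    change minpoly k b' = minpoly k b
    rw [← h1, ← h2]
  exact isConjRoot_iff_exists_algEquiv.1 h3

theorem two_trans (D : k[X]) (hirr : Irreducible D) (hT : Two D) (b₁ b₂ a a' : AlgebraicClosure k)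
    (hb₁ : aeval b₁ D = 0) (hb₂ : aeval b₂ D = 0) (ha : aeval a D = 0) (ha' : aeval a' D = 0)
    (hb : b₁ ≠ b₂) (haa : a ≠ a') :
    ∃ σ : AlgebraicClosure k ≃ₐ[k] AlgebraicClosure k, σ b₁ = a ∧ σ b₂ = a' := by
  obtain ⟨b₀, hb₀, hT⟩ := hT
  obtain ⟨g, hg⟩ := trans_roots D hirr b₁ b₀ hb₁ hb₀
  obtain ⟨h, hh⟩ := trans_roots D hirr a b₀ ha hb₀
  have hroot : ∀ (σ : AlgebraicClosure k ≃ₐ[k] AlgebraicClosure k) (b : AlgebraicClosure k),
      aeval b D = 0 → aeval (σ b) D = 0 := by
    intro σ b hb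
    have h1 := aeval_algHom_apply (σ : AlgebraicClosure k →ₐ[k] AlgebraicClosure k) b D
    rw [hb, map_zero] at h1
    exact h1
  obtain ⟨σ, hσ1, hσ2⟩ := hT (g b₂) (h a') (hroot g _ hb₂) (hroot h _ ha')
    (fun e => hb (g.injective (hg.trans e.symm))) (fun e => haa (h.injective (hh.trans e.symm)))
  refine ⟨(g.trans σ).trans h.symm, ?_, ?_⟩
  · change h.symm (σ (g b₁)) = a
    rw [hg, hσ1, ← hh, h.symm_apply_apply]
  · change h.symm (σ (g b₂)) = a'
    rw [hσ2, h.symm_apply_apply]

theorem mult_one [CharZero k] (D : k[X]) (hirr : Irreducible D) (a : AlgebraicClosure k)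
    (ha : aeval a D = 0) :
    (D.map (algebraMap k (AlgebraicClosure k))).rootMultiplicity a = 1 := by
  have hsep : (D.map (algebraMap k (AlgebraicClosure k))).Separable := hirr.separable.map
  have h1 : (D.map (algebraMap k (AlgebraicClosure k))).IsRoot a := by
    rw [IsRoot.def, eval_map_algebraMap, ha]
  refine le_antisymm (rootMultiplicity_le_one_of_separable hsep a) ?_
  exact (rootMultiplicity_pos hsep.ne_zero).2 h1

theorem link [CharZero k] (ℓ : ℕ) [Fact ℓ.Prime] (f D : k[X]) (hirr : Irreducible D)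
    (hT : Two D) (hc : D.natDegree = 1 ∨ ∃ b₁ b₂ : AlgebraicClosure k, b₁ ≠ b₂ ∧
      aeval b₁ D = 0 ∧ aeval b₂ D = 0 ∧ Coll ℓ f D b₁ b₂) :
    Conn ℓ f D := by
  classical
  have hmr : ∀ a : AlgebraicClosure k,
      ¬ ℓ ∣ (D.map (algebraMap k (AlgebraicClosure k))).rootMultiplicity a → aeval a D = 0 := by
    intro a ha
    by_contra h
    apply ha
    rw [rootMultiplicity_eq_zero (fun h' => h (by
      rwa [IsRoot.def, eval_map_algebraMap] at h'))]
    exact dvd_zero _
  intro a a' ha ha'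
  by_cases haa : a = a'
  · rw [haa]
    exact Relation.EqvGen.refl _
  rcases hc with h1 | ⟨b₁, b₂, hb, hb₁, hb₂, hcoll⟩
  · exfalso
    have hD0 : D.map (algebraMap k (AlgebraicClosure k)) ≠ 0 :=
      (Polynomial.map_ne_zero_iff (algebraMap k (AlgebraicClosure k)).injective).2 hirr.ne_zero
    have h2 : ({a, a'} : Finset (AlgebraicClosure k)) ⊆
        (D.map (algebraMap k (AlgebraicClosure k))).roots.toFinset := by
      intro b hb
      rw [Finset.mem_insert, Finset.mem_singleton] at hb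
      rw [Multiset.mem_toFinset, mem_roots hD0, IsRoot.def, eval_map_algebraMap]
      rcases hb with rfl | rfl
      · exact hmr _ ha
      · exact hmr _ ha'
    have h3 := (Finset.card_le_card h2).trans ((Multiset.toFinset_card_le _).trans (card_roots' _))
    rw [Finset.card_pair haa, natDegree_map] at h3
    omega
  · obtain ⟨σ, hσ1, hσ2⟩ := two_trans D hirr hT b₁ b₂ a a' hb₁ hb₂ (hmr a ha) (hmr a' ha') hb haa
    have h1 := coll_conj ℓ f D b₁ b₂ σ hcoll
    rw [hσ1, hσ2] at h1
    exact Relation.EqvGen.rel _ _ ⟨ha, ha', haa, h1⟩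

end Pool.Agent.T6.H28.BB
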