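import Pool.Agent.T6.H28.BB.Iota
import Pool.Agent.T6.H28.BB.Coll
import Pool.Agent.T6.H28.BB.CntV
import Pool.Agent.W858.SG.Hensel
import Pool.Agent.W858.SG.Extend
import Pool.Agent.TH377.Sup.EmbR
import Pool.Agent.T6.H28.GraphE

/-! # The factorisation types of polynomials at a place -/

set_option autoImplicit false
set_option linter.all false

namespace Pool.Agent.T6.H28.BB

open Polynomial WithZero NumberField IsDedekindDomain Pool.Agent.W858.SF Pool.Agent.W858.SG
open Pool.Agent.TH120.Sec (red pr) 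
open Pool.Agent.TH377.Sup

section gauss

variable {B : Type} [Field B] (A : ValuationSubring B)

theorem irr_val (gB : A[X]) (hlc : IsUnit gB.leadingCoeff)
    (hirr : Irreducible (gB.map (IsLocalRing.residue A))) :
    Irreducible (gB.map (algebraMap A B)) := by
  obtain ⟨u, hu⟩ := hlc
  have hmon : (C ((u⁻¹ : Aˣ) : A) * gB).Monic := by
    rw [Monic, leadingCoeff_mul, leadingCoeff_C, ← hu, Units.inv_mul]
  have h4 : Irreducible (C ((u⁻¹ : Aˣ) : A) * gB) := by
    refine hmon.irreducible_of_irreducible_map (IsLocalRing.residue A) _ ?_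
    rw [Polynomial.map_mul, map_C]
    exact (irreducible_isUnit_mul (isUnit_C.2 ((u⁻¹).isUnit.map _))).2 hirr
  have h5 := (hmon.irreducible_iff_irreducible_map_fraction_map (K := B)).1 h4
  rw [Polynomial.map_mul, map_C] at h5
  exact (irreducible_isUnit_mul (isUnit_C.2 ((u⁻¹).isUnit.map _))).1 h5

end gauss

section root

variable {p : ℕ} [hp : Fact p.Prime]

/-- roots are integral -/
theorem root_le_one (F : (PadicAlgCl p)[X]) (hF : ∀ i, ‖F.coeff i‖ ≤ 1)
    (hlc : ‖F.leadingCoeff‖ = 1) (z : PadicAlgCl p) (hz : F.eval z = 0) : ‖z‖ ≤ 1 := by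
  by_contra h
  push Not at h
  have hn : F.natDegree ≠ 0 := by
    intro h0
    rw [eq_C_of_natDegree_eq_zero h0, eval_C] at hz
    rw [leadingCoeff, h0, hz, norm_zero] at hlc
    exact zero_ne_one hlc
  rw [eval_eq_sum_range, Finset.sum_range_succ] at hz
  have h1 : ‖∑ i ∈ Finset.range F.natDegree, F.coeff i * z ^ i‖ ≤ ‖z‖ ^ (F.natDegree - 1) := by
    refine IsUltrametricDist.norm_sum_le_of_forall_le_of_nonneg (by positivity) ?_
    intro i hi
    rw [norm_mul, norm_pow]
    have h2 : i ≤ F.natDegree - 1 := by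
      have := Finset.mem_range.1 hi
      omega
    calc ‖F.coeff i‖ * ‖z‖ ^ i ≤ 1 * ‖z‖ ^ i := mul_le_mul_of_nonneg_right (hF i) (by positivity)
      _ = ‖z‖ ^ i := one_mul _
      _ ≤ ‖z‖ ^ (F.natDegree - 1) := pow_le_pow_right₀ h.le h2
  have h3 : ‖F.coeff F.natDegree * z ^ F.natDegree‖ = ‖z‖ ^ F.natDegree := by
    rw [norm_mul, norm_pow]
    change ‖F.leadingCoeff‖ * _ = _
    rw [hlc, one_mul]
  have h4 : F.coeff F.natDegree * z ^ F.natDegree =
      -∑ i ∈ Finset.range F.natDegree, F.coeff i * z ^ i := by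
    linear_combination hz
  rw [h4, norm_neg] at h3
  have h5 : ‖z‖ ^ (F.natDegree - 1) < ‖z‖ ^ F.natDegree := pow_lt_pow_right₀ h (by omega)
  linarith

/-- good reduction from a Bézout relation -/
theorem good_red {k : Type} [Field k] (j : AlgebraicClosure k →+* PadicAlgCl p) (f a b : k[X])
    (hab : a * f + b * f.derivative = 1)
    (hf : ∀ i, ‖j (algebraMap k (AlgebraicClosure k) (f.coeff i))‖ ≤ 1)
    (ha : ∀ i, ‖j (algebraMap k (AlgebraicClosure k) (a.coeff i))‖ ≤ 1)
    (hb : ∀ i, ‖j (algebraMap k (AlgebraicClosure k) (b.coeff i))‖ ≤ 1)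
    (hlc : ‖j (algebraMap k (AlgebraicClosure k) f.leadingCoeff)‖ = 1) :
    Pool.Agent.T6.H28.Fin.GoodRed f j := by
  classical
  let q : k →+* PadicAlgCl p := j.comp (algebraMap k (AlgebraicClosure k))
  have hev : ∀ (g : k[X]) (e : AlgebraicClosure k), (g.map q).eval (j e) = j (aeval e g) := by
    intro g e
    rw [eval_map, aeval_def, hom_eval₂]
  have hlcm : (f.map q).leadingCoeff = q f.leadingCoeff := leadingCoeff_map q
  have hint : ∀ e, aeval e f = 0 → ‖j e‖ ≤ 1 := by
    intro e he
    refine root_le_one (f.map q) (fun i => ?_) ?_ (j e) ?_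
    · rw [coeff_map]
      exact hf i
    · rw [hlcm]
      exact hlc
    · rw [hev, he, map_zero]
  refine ⟨hlc, hint, fun e e' he he' hne => ?_⟩
  refine le_antisymm (norm_sub_le (hint e he) (hint e' he')) ?_
  by_contra hlt
  push Not at hlt
  -- the derivative at `e`
  have hfe : (f.map q).IsRoot (j e) := by rw [IsRoot.def, hev, he, map_zero]
  have hfe' : (f.map q).IsRoot (j e') := by rw [IsRoot.def, hev, he', map_zero]
  have hf0 : f.map q ≠ 0 := by
    intro h0
    rw [h0, leadingCoeff_zero] at hlcm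
    change ‖q f.leadingCoeff‖ = 1 at hlc
    rw [← hlcm, norm_zero] at hlc
    exact zero_ne_one hlc
  have hsplit : (f.map q).Splits := IsAlgClosed.splits _
  have hprod := hsplit.eq_prod_roots
  have hje : j e ≠ j e' := fun h => hne (j.injective h)
  obtain ⟨T, hT⟩ : ∃ T : Multiset (PadicAlgCl p), (f.map q).roots = j e ::ₘ j e' ::ₘ T := by
    obtain ⟨T₁, hT₁⟩ := Multiset.exists_cons_of_mem ((mem_roots hf0).2 hfe)
    have h1 : j e' ∈ T₁ := by
      have h2 := (mem_roots hf0).2 hfe'
      rw [hT₁, Multiset.mem_cons] at h2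
      exact h2.resolve_left (Ne.symm hje)
    obtain ⟨T, hT⟩ := Multiset.exists_cons_of_mem h1
    exact ⟨T, by rw [hT₁, hT]⟩
  have hTle : ∀ z ∈ T, ‖z‖ ≤ 1 := by
    intro z hz
    have h1 : z ∈ (f.map q).roots := by
      rw [hT]
      exact Multiset.mem_cons_of_mem (Multiset.mem_cons_of_mem hz)
    refine root_le_one (f.map q) (fun i => ?_) ?_ z ((mem_roots hf0).1 h1)
    · rw [coeff_map]
      exact hf i
    · rw [hlcm]
      exact hlc
  obtain ⟨G, hG⟩ : ∃ G : (PadicAlgCl p)[X], G = C (q f.leadingCoeff) * (T.map fun z => X - C z).prod :=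
    ⟨_, rfl⟩
  have hfG : f.map q = (X - C (j e)) * (X - C (j e')) * G := by
    conv_lhs => rw [hprod]
    rw [hT, Multiset.map_cons, Multiset.map_cons, Multiset.prod_cons, Multiset.prod_cons, hlcm, hG]
    ring
  have hGe : ‖G.eval (j e)‖ ≤ 1 := by
    rw [hG, eval_mul, eval_C, norm_mul]
    change ‖j (algebraMap k (AlgebraicClosure k) f.leadingCoeff)‖ * _ ≤ 1
    rw [hlc, one_mul, eval_multiset_prod, Multiset.map_map]
    have h1 : ∀ s : Multiset (PadicAlgCl p), (∀ z ∈ s, ‖z‖ ≤ 1) →
        ‖(s.map (eval (j e) ∘ fun z => X - C z)).prod‖ ≤ 1 := by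
      intro s
      induction s using Multiset.induction_on with
      | empty => intro _; simp
      | cons z s ih =>
        intro hs
        rw [Multiset.map_cons, Multiset.prod_cons, norm_mul]
        refine mul_le_one₀ ?_ (norm_nonneg _) (ih fun w hw => hs w (Multiset.mem_cons_of_mem hw))
        simp only [Function.comp, eval_sub, eval_X, eval_C]
        exact norm_sub_le (hint e he) (hs z (Multiset.mem_cons_self z s))
    exact h1 T hTle
  have hder : (f.map q).derivative.eval (j e) = (j e - j e') * G.eval (j e) := by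
    rw [hfG, derivative_mul, derivative_mul]
    simp
  have hsmall : ‖(f.map q).derivative.eval (j e)‖ < 1 := by
    rw [hder, norm_mul]
    exact mul_lt_one_of_nonneg_of_lt_one_left (norm_nonneg _) hlt hGe
  have hone : (b.map q).eval (j e) * (f.map q).derivative.eval (j e) = 1 := by
    have h1 := congrArg (fun g : k[X] => (g.map q).eval (j e)) hab
    simp only [Polynomial.map_add, Polynomial.map_mul, eval_add, eval_mul, Polynomial.map_one,
      eval_one] at h1
    rw [show (f.map q).eval (j e) = 0 from hfe, mul_zero, zero_add] at h1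
    rw [derivative_map]
    exact h1
  have hbe : ‖(b.map q).eval (j e)‖ ≤ 1 := by
    rw [eval_eq_sum_range]
    refine IsUltrametricDist.norm_sum_le_of_forall_le_of_nonneg zero_le_one ?_
    intro i hi
    rw [norm_mul, norm_pow, coeff_map]
    exact mul_le_one₀ (hb i) (by positivity) (pow_le_one₀ (norm_nonneg _) (hint e he))
  have h2 := congrArg norm hone
  rw [norm_mul, norm_one] at h2
  have h3 := mul_lt_one_of_nonneg_of_lt_one_right hbe (norm_nonneg _) hsmall
  linarith

end root

end Pool.Agent.T6.H28.BB
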