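import Pool.Agent.T6.H28.BB.Loc

/-! # The factorisation types of polynomials at a place, continued -/

set_option autoImplicit false
set_option linter.all false

namespace Pool.Agent.T6.H28.BB

open Polynomial WithZero NumberField IsDedekindDomain Pool.Agent.W858.SF Pool.Agent.W858.SG
open Pool.Agent.TH120.Sec (red pr) 
open Pool.Agent.TH377.Sup

section place

variable {L : Type} [Field L] [NumberField L] (v : HeightOneSpectrum (𝓞 L))
  {R : Type} [CommRing R] {k : Type} [Field k] [CharZero k] [Algebra R k]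
  (P : R →+* L) (ψ : k →+* v.adicCompletion L)

theorem core (hPint : ∀ r, v.valuation L (P r) ≤ 1)
    (hψ : ∀ r, vv v (ψ (algebraMap R k r) - algebraMap L (v.adicCompletion L) (P r)) ≤ exp (-2))
    (θ : (𝓞 L ⧸ v.asIdeal) →+* IsLocalRing.ResidueField (vv v).valuationSubring)
    (hθr : ∀ (r : 𝓞 L) (b : (vv v).valuationSubring), vv v ((b : v.adicCompletion L) -
      algebraMap L (v.adicCompletion L) (algebraMap (𝓞 L) L r)) < 1 →
      IsLocalRing.residue _ b = θ (Ideal.Quotient.mk v.asIdeal r))
    {n : ℕ} (c : Fin (n + 1) → R) (y : Fin (n + 1) → 𝓞 L)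
    (hcy : ∀ i, v.valuation L (P (c i) - algebraMap (𝓞 L) L (y i)) ≤ exp (-2)) :
    (∀ i, vv v (ψ (algebraMap R k (c i)) -
      algebraMap L (v.adicCompletion L) (algebraMap (𝓞 L) L (y i))) ≤ exp (-2)) ∧
    ∃ gB : (vv v).valuationSubring[X],
      gB.map (algebraMap (vv v).valuationSubring (v.adicCompletion L)) =
        (pol fun i => algebraMap R k (c i)).map ψ ∧
      gB.map (IsLocalRing.residue (vv v).valuationSubring) =
        (pol fun i => Ideal.Quotient.mk v.asIdeal (y i)).map θ := by
  have hγ2 : (exp (-2) : ℤᵐ⁰) < 1 := by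
    rw [← exp_zero, exp_lt_exp]
    omega
  have hPv : ∀ r, vv v (algebraMap L (v.adicCompletion L) (P r)) ≤ 1 := fun r => by
    rw [vv_algebraMap]
    exact hPint r
  have hψ1 : ∀ r, vv v (ψ (algebraMap R k r)) ≤ 1 := by
    intro r
    have h1 : ψ (algebraMap R k r) = (ψ (algebraMap R k r) -
      algebraMap L (v.adicCompletion L) (P r)) + algebraMap L (v.adicCompletion L) (P r) := by ring
    rw [h1]
    exact (Valuation.map_add _ _ _).trans (max_le ((hψ r).trans hγ2.le) (hPv r))
  have hnear : ∀ i, vv v (ψ (algebraMap R k (c i)) -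
      algebraMap L (v.adicCompletion L) (algebraMap (𝓞 L) L (y i))) ≤ exp (-2) := by
    intro i
    have h1 : ψ (algebraMap R k (c i)) -
        algebraMap L (v.adicCompletion L) (algebraMap (𝓞 L) L (y i)) =
        (ψ (algebraMap R k (c i)) - algebraMap L (v.adicCompletion L) (P (c i))) +
        algebraMap L (v.adicCompletion L) (P (c i) - algebraMap (𝓞 L) L (y i)) := by
      rw [map_sub]
      ring
    rw [h1]
    refine (Valuation.map_add _ _ _).trans (max_le (hψ _) ?_)
    rw [vv_algebraMap]
    exact hcy i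
  refine ⟨hnear, ?_⟩
  let cB : Fin (n + 1) → (vv v).valuationSubring := fun i => ⟨ψ (algebraMap R k (c i)), hψ1 _⟩
  have hres : ∀ i, IsLocalRing.residue _ (cB i) = θ (Ideal.Quotient.mk v.asIdeal (y i)) := by
    intro i
    exact hθr _ _ ((hnear i).trans_lt hγ2)
  refine ⟨pol cB, ?_, ?_⟩
  · rw [pol_map, pol_map]
    rfl
  · rw [pol_map, pol_map]
    simp only [hres]

/-- the leading coefficient is a unit if the degree is not lowered modulo the place -/
theorem unit_lc {n : ℕ} (gB : (vv v).valuationSubring[X])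
    (hdeg : (gB.map (IsLocalRing.residue (vv v).valuationSubring)).natDegree = n)
    (hn : gB.natDegree ≤ n) (h0 : gB.map (IsLocalRing.residue (vv v).valuationSubring) ≠ 0) :
    gB.natDegree = n ∧ IsUnit gB.leadingCoeff := by
  have h1 : gB.natDegree = n := le_antisymm hn (hdeg ▸ natDegree_map_le)
  refine ⟨h1, ?_⟩
  have h2 : (gB.map (IsLocalRing.residue (vv v).valuationSubring)).coeff n ≠ 0 := by
    rw [← hdeg]
    exact leadingCoeff_ne_zero.2 h0
  rw [coeff_map, ← h1] at h2
  by_contra h3
  exact h2 ((IsLocalRing.residue_eq_zero_iff _).2 ((IsLocalRing.mem_maximalIdeal _).2 h3))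

theorem type1 (hPint : ∀ r, v.valuation L (P r) ≤ 1)
    (hψ : ∀ r, vv v (ψ (algebraMap R k r) - algebraMap L (v.adicCompletion L) (P r)) ≤ exp (-2))
    {n : ℕ} (c : Fin (n + 1) → R) (y : Fin (n + 1) → 𝓞 L)
    (hcy : ∀ i, v.valuation L (P (c i) - algebraMap (𝓞 L) L (y i)) ≤ exp (-2))
    (hy : red (v.asIdeal ^ 2) (n + 1) y ∈ Irr2 v n) :
    Irreducible (pol fun i => algebraMap R k (c i)) ∧
      (pol fun i => algebraMap R k (c i)).natDegree = n := by
  have hmax : v.asIdeal.IsMaximal := v.isMaximal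
  let _ := Ideal.Quotient.field v.asIdeal
  obtain ⟨θ, hθ, hθr⟩ := exists_residue_map v
  have hθinj : Function.Injective θ := θ.injective
  obtain ⟨hnear, gB, hg1, hg2⟩ := core v P ψ hPint hψ θ hθr c y hcy
  obtain ⟨hy1, hy2⟩ := hy
  have hy2' : Irreducible (pol fun i => Ideal.Quotient.mk v.asIdeal (y i)) := hy2
  have hdeg : (pol fun i => Ideal.Quotient.mk v.asIdeal (y i)).natDegree = n :=
    pol_natDegree _ hy1
  have hdeg2 : (gB.map (IsLocalRing.residue (vv v).valuationSubring)).natDegree = n := by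
    rw [hg2, natDegree_map_eq_of_injective hθinj, hdeg]
  have hirr : Irreducible (gB.map (IsLocalRing.residue (vv v).valuationSubring)) := by
    rw [hg2]
    exact (MulEquiv.irreducible_iff (Polynomial.mapEquiv
      (RingEquiv.ofBijective θ ⟨hθinj, hθ⟩)).toMulEquiv).2 hy2'
  have hle : gB.natDegree ≤ n := by
    have h1 : gB.natDegree = ((pol fun i => algebraMap R k (c i)).map ψ).natDegree := by
      rw [← hg1]
      exact (natDegree_map_eq_of_injective Subtype.val_injective gB).symm
    rw [h1, natDegree_map]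
    exact pol_natDegree_le _
  obtain ⟨hd1, hlc⟩ := unit_lc v gB hdeg2 hle hirr.ne_zero
  have h2 := irr_val _ gB hlc hirr
  rw [hg1] at h2
  refine ⟨irr_of_map ψ _ h2, ?_⟩
  rw [← natDegree_map ψ, ← hg1]
  exact (natDegree_map_eq_of_injective Subtype.val_injective gB).trans hd1

/-- a simple root modulo the place can be lifted -/
theorem simple_root (gB : (vv v).valuationSubring[X]) (b : (vv v).valuationSubring)
    (h0 : (gB.map (IsLocalRing.residue (vv v).valuationSubring)).IsRoot (IsLocalRing.residue _ b))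
    (h1 : (gB.map (IsLocalRing.residue (vv v).valuationSubring)).derivative.eval
      (IsLocalRing.residue _ b) ≠ 0) :
    ∃ t : (vv v).valuationSubring, gB.IsRoot t ∧
      IsLocalRing.residue (vv v).valuationSubring t = IsLocalRing.residue _ b := by
  have e0 : vv v ((gB.eval b : (vv v).valuationSubring) : v.adicCompletion L) < 1 := by
    rw [← mem_max]
    refine (IsLocalRing.residue_eq_zero_iff _).1 ?_
    rw [IsRoot.def, eval_map, eval₂_at_apply] at h0
    exact h0
  have e1 : vv v ((gB.derivative.eval b : (vv v).valuationSubring) : v.adicCompletion L) = 1 := by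
    refine le_antisymm (gB.derivative.eval b).2 ?_
    by_contra h2
    rw [not_le] at h2
    apply h1
    rw [derivative_map, eval_map, eval₂_at_apply]
    refine (IsLocalRing.residue_eq_zero_iff _).2 ?_
    rw [mem_max]
    exact h2
  have hcoe : ∀ (h : (vv v).valuationSubring[X]) (x : (vv v).valuationSubring),
      (h.map (algebraMap (vv v).valuationSubring (v.adicCompletion L))).eval
        (x : v.adicCompletion L) = ((h.eval x : (vv v).valuationSubring) : v.adicCompletion L) := by
    intro h x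
    rw [eval_map]
    exact eval₂_at_apply (algebraMap (vv v).valuationSubring (v.adicCompletion L)) x
  obtain ⟨z, hz1, hz2⟩ := newton v
    (gB.map (algebraMap (vv v).valuationSubring (v.adicCompletion L)))
    (fun i => by
      rw [coeff_map]
      exact (gB.coeff i).2) (b : v.adicCompletion L) b.2
    ((gB.eval b : (vv v).valuationSubring) : v.adicCompletion L) e0 (by rw [hcoe]) (by
      rw [derivative_map, hcoe, e1])
  have hz3 : vv v z ≤ 1 := by
    have h3 : z = (z - b) + b := by ring
    rw [h3]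
    exact (Valuation.map_add _ _ _).trans (max_le (hz1.trans e0.le) b.2)
  refine ⟨⟨z, hz3⟩, ?_, ?_⟩
  · apply Subtype.ext
    rw [← hcoe]
    exact hz2
  · rw [← sub_eq_zero, ← map_sub, IsLocalRing.residue_eq_zero_iff, mem_max]
    exact hz1.trans_lt e0

theorem type2 (hPint : ∀ r, v.valuation L (P r) ≤ 1)
    (hψ : ∀ r, vv v (ψ (algebraMap R k r) - algebraMap L (v.adicCompletion L) (P r)) ≤ exp (-2))
    {d : ℕ} (hd : 2 ≤ d) (c : Fin (d + 2) → R) (y : Fin (d + 2) → 𝓞 L)
    (hcy : ∀ i, v.valuation L (P (c i) - algebraMap (𝓞 L) L (y i)) ≤ exp (-2))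
    (hy : red (v.asIdeal ^ 2) (d + 2) y ∈ Two2 v d)
    (hirrD : Irreducible (pol fun i => algebraMap R k (c i))) :
    ∃ b₀ : AlgebraicClosure k, aeval b₀ (pol fun i => algebraMap R k (c i)) = 0 ∧
      ∀ b' b'' : AlgebraicClosure k, aeval b' (pol fun i => algebraMap R k (c i)) = 0 →
        aeval b'' (pol fun i => algebraMap R k (c i)) = 0 → b' ≠ b₀ → b'' ≠ b₀ →
        ∃ σ : AlgebraicClosure k ≃ₐ[k] AlgebraicClosure k, σ b₀ = b₀ ∧ σ b' = b'' := by
  classical
  have hmax : v.asIdeal.IsMaximal := v.isMaximal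
  let _ := Ideal.Quotient.field v.asIdeal
  obtain ⟨θ, hθ, hθr⟩ := exists_residue_map v
  have hθinj : Function.Injective θ := θ.injective
  obtain ⟨hnear, gB, hg1, hg2⟩ := core v P ψ hPint hψ θ hθr c y hcy
  obtain ⟨D, hD⟩ : ∃ D : k[X], D = pol fun i => algebraMap R k (c i) := ⟨_, rfl⟩
  rw [← hD] at hirrD hg1 ⊢
  obtain ⟨a, Q, hQ, hQd, hpol⟩ := hy
  have hpol' : (pol fun i => Ideal.Quotient.mk v.asIdeal (y i)) = (X - C a) * Q := hpol
  rw [hpol', Polynomial.map_mul, Polynomial.map_sub, map_X, map_C] at hg2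
  have hQθ : Irreducible (Q.map θ) :=
    (MulEquiv.irreducible_iff (Polynomial.mapEquiv
      (RingEquiv.ofBijective θ ⟨hθinj, hθ⟩)).toMulEquiv).2 hQ
  have hQθd : (Q.map θ).natDegree = d := by rw [natDegree_map_eq_of_injective hθinj, hQd]
  have hQa : (Q.map θ).eval (θ a) ≠ 0 := by
    intro h
    have h7 := degree_eq_one_of_irreducible_of_root hQθ h
    have h8 : (Q.map θ).natDegree = 1 := natDegree_eq_of_degree_eq_some h7
    omega
  obtain ⟨bA, hbA⟩ := IsLocalRing.residue_surjective (R := (vv v).valuationSubring) (θ a)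
  obtain ⟨t, ht1, ht2⟩ := simple_root v gB bA (by
      rw [hg2, hbA, IsRoot.def, eval_mul, eval_sub, eval_X, eval_C, sub_self, zero_mul]) (by
      rw [hg2, hbA, derivative_mul]
      simpa using hQa)
  rw [hbA] at ht2
  obtain ⟨QB, hQB⟩ := dvd_iff_isRoot.2 ht1
  have hQBr : QB.map (IsLocalRing.residue (vv v).valuationSubring) = Q.map θ := by
    have h1 := hg2
    rw [hQB, Polynomial.map_mul, Polynomial.map_sub, map_X, map_C, ht2] at h1
    exact mul_left_cancel₀ (X_sub_C_ne_zero _) h1
  have hdegD : D.natDegree ≤ d + 1 := by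
    rw [hD]
    exact pol_natDegree_le _
  have hdegB : gB.natDegree = D.natDegree := by
    rw [← natDegree_map ψ, ← hg1]
    exact (natDegree_map_eq_of_injective Subtype.val_injective gB).symm
  have hres0 : gB.map (IsLocalRing.residue (vv v).valuationSubring) ≠ 0 := by
    rw [hg2]
    exact mul_ne_zero (X_sub_C_ne_zero _) hQθ.ne_zero
  have hresd : (gB.map (IsLocalRing.residue (vv v).valuationSubring)).natDegree = d + 1 := by
    rw [hg2, natDegree_mul (X_sub_C_ne_zero _) hQθ.ne_zero, natDegree_X_sub_C, hQθd, add_comm]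
  obtain ⟨hd1, hlc⟩ := unit_lc v gB hresd (hdegB ▸ hdegD) hres0
  have hlcQ : IsUnit QB.leadingCoeff := by
    rw [hQB, leadingCoeff_mul, leadingCoeff_X_sub_C, one_mul] at hlc
    exact hlc
  have hQBirr := irr_val _ QB hlcQ (by rw [hQBr]; exact hQθ)
  -- the root in the algebraic closure
  have hdegD1 : D.natDegree = d + 1 := by rw [← hdegB, hd1]
  obtain ⟨b₀, hb₀⟩ := IsAlgClosed.exists_aeval_eq_zero (AlgebraicClosure k) D (by
    intro h
    rw [degree_eq_natDegree hirrD.ne_zero, hdegD1] at h
    norm_cast at h)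
  have hb₀int : IsIntegral k b₀ := Algebra.IsIntegral.isIntegral b₀
  let _ : Algebra k (v.adicCompletion L) := ψ.toAlgebra
  have hmin : D * C D.leadingCoeff⁻¹ = minpoly k b₀ := minpoly.eq_of_irreducible hirrD hb₀
  have htroot : aeval (t : v.adicCompletion L) (minpoly k b₀) = 0 := by
    rw [← hmin, map_mul]
    have h1 : aeval (t : v.adicCompletion L) D = 0 := by
      rw [aeval_def, ← eval_map]
      change (D.map ψ).eval _ = 0
      rw [← hg1, eval_map]
      have h2 := eval₂_at_apply (p := gB)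
        (algebraMap (vv v).valuationSubring (v.adicCompletion L)) t
      refine h2.trans ?_
      rw [show gB.eval t = 0 from ht1, map_zero]
    rw [h1, zero_mul]
  obtain ⟨F, hF⟩ : ∃ F : IntermediateField k (AlgebraicClosure k),
      F = IntermediateField.adjoin k {b₀} := ⟨_, rfl⟩
  obtain ⟨g, hg, ψ', hψ'⟩ : ∃ (g : F) (hg : (g : AlgebraicClosure k) = b₀)
      (ψ' : F →ₐ[k] v.adicCompletion L), ψ' g = t := by
    subst hF
    refine ⟨IntermediateField.AdjoinSimple.gen k b₀, rfl,
      (IntermediateField.algHomAdjoinIntegralEquiv k hb₀int).symm ⟨(t : v.adicCompletion L), ?_⟩,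
      IntermediateField.algHomAdjoinIntegralEquiv_symm_apply_gen k hb₀int _⟩
    rw [mem_aroots]
    exact ⟨minpoly.ne_zero hb₀int, htroot⟩
  have hgroot : (D.map (algebraMap k F)).IsRoot g := by
    rw [IsRoot.def, eval_map, ← aeval_def]
    apply Subtype.val_injective
    have h1 : ((aeval g D : F) : AlgebraicClosure k) = aeval (g : AlgebraicClosure k) D := by
      have := aeval_algebraMap_apply (AlgebraicClosure k) g D
      exact this.symm
    rw [h1, hg, hb₀]
    rfl
  obtain ⟨D₁, hD₁⟩ := dvd_iff_isRoot.2 hgroot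
  have hD₁map : D₁.map (ψ' : F →+* v.adicCompletion L) =
      QB.map (algebraMap (vv v).valuationSubring (v.adicCompletion L)) := by
    have h1 : (D.map (algebraMap k F)).map (ψ' : F →+* v.adicCompletion L) = D.map ψ := by
      rw [Polynomial.map_map]
      congr 1
      exact ψ'.comp_algebraMap
    rw [hD₁, Polynomial.map_mul, Polynomial.map_sub, map_X, map_C, ← hg1, hQB, Polynomial.map_mul,
      Polynomial.map_sub, map_X, map_C] at h1
    have h2 : ((ψ' : F →+* v.adicCompletion L) g) =
        algebraMap (vv v).valuationSubring (v.adicCompletion L) t := hψ'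
    rw [h2] at h1
    exact mul_left_cancel₀ (X_sub_C_ne_zero _) h1
  have hD₁irr : Irreducible D₁ := by
    refine irr_of_map (ψ' : F →+* v.adicCompletion L) _ ?_
    rw [hD₁map]
    exact hQBirr
  refine ⟨b₀, hb₀, fun b' b'' hb' hb'' hne' hne'' => ?_⟩
  have key : ∀ b : AlgebraicClosure k, aeval b D = 0 → b ≠ b₀ →
      minpoly F b = D₁ * C D₁.leadingCoeff⁻¹ := by
    intro b hb hne
    refine (minpoly.eq_of_irreducible hD₁irr ?_).symm
    have h1 : aeval b (D.map (algebraMap k F)) = 0 := by rw [aeval_map_algebraMap, hb]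
    rw [hD₁, map_mul, map_sub, aeval_X, aeval_C] at h1
    have h2 : algebraMap F (AlgebraicClosure k) g = b₀ := hg
    rw [h2] at h1
    exact (mul_eq_zero.1 h1).resolve_left (sub_ne_zero.2 hne)
  have hconj : IsConjRoot F b'' b' := by
    change minpoly F b'' = minpoly F b'
    rw [key b' hb' hne', key b'' hb'' hne'']
  obtain ⟨σ, hσ⟩ := isConjRoot_iff_exists_algEquiv.1 hconj
  refine ⟨σ.restrictScalars k, ?_, hσ⟩
  have h1 := σ.commutes g
  have h2 : algebraMap F (AlgebraicClosure k) g = b₀ := hg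
  rw [h2] at h1
  exact h1

end place

end Pool.Agent.T6.H28.BB
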