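import Pool.Agent.T6.H28.BB.Loc2

/-! # Collisions at a place -/

set_option autoImplicit false
set_option linter.all false

namespace Pool.Agent.T6.H28.BB

open Polynomial WithZero NumberField IsDedekindDomain Pool.Agent.W858.SF Pool.Agent.W858.SG
open Pool.Agent.TH120.Sec (red pr) 
open Pool.Agent.TH377.Sup

theorem eval_lt_one {p : ℕ} [Fact p.Prime] (F : (PadicAlgCl p)[X]) (hF : ∀ i, ‖F.coeff i‖ < 1)
    (z : PadicAlgCl p) (hz : ‖z‖ ≤ 1) : ‖F.eval z‖ < 1 := by
  rw [eval_eq_sum_range]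
  obtain ⟨i, hi, h⟩ := IsUltrametricDist.exists_norm_finsetSum_le_of_nonempty
    (t := Finset.range (F.natDegree + 1)) ⟨0, by simp⟩ (fun i => F.coeff i * z ^ i)
  refine h.trans_lt ?_
  rw [norm_mul, norm_pow]
  exact mul_lt_one_of_nonneg_of_lt_one_left (norm_nonneg _) (hF i)
    (pow_le_one₀ (norm_nonneg _) hz)

theorem der_factor {κ : Type*} [CommRing κ] (w : κ) (Q : κ[X]) :
    ((X - C w) * Q).derivative.eval w = Q.eval w := by
  simp [derivative_mul]

section place

variable {L : Type} [Field L] [NumberField L] (v : HeightOneSpectrum (𝓞 L))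
  {R : Type} [CommRing R] {k : Type} [Field k] [CharZero k] [Algebra R k]
  (P : R →+* L) (ψ : k →+* v.adicCompletion L)

/-- the value at the double root has valuation one -/
theorem val_double {n : ℕ} (c : Fin (n + 1) → R) (y : Fin (n + 1) → 𝓞 L)
    (hnear : ∀ i, vv v (ψ (algebraMap R k (c i)) -
      algebraMap L (v.adicCompletion L) (algebraMap (𝓞 L) L (y i))) ≤ exp (-2))
    (hc1 : ∀ i, vv v (ψ (algebraMap R k (c i))) ≤ 1)
    (a₀ : 𝓞 L) (h1 : (pol y).eval a₀ ∈ v.asIdeal) (h2 : (pol y).eval a₀ ∉ v.asIdeal ^ 2) :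
    vv v (((pol fun i => algebraMap R k (c i)).map ψ).eval
      (algebraMap L (v.adicCompletion L) (algebraMap (𝓞 L) L a₀))) = exp (-1) := by
  have hq : ((pol y).map ((algebraMap L (v.adicCompletion L)).comp (algebraMap (𝓞 L) L))).eval
      (algebraMap L (v.adicCompletion L) (algebraMap (𝓞 L) L a₀)) =
      algebraMap L (v.adicCompletion L) (algebraMap (𝓞 L) L ((pol y).eval a₀)) := by
    rw [eval_map]
    exact eval₂_at_apply ((algebraMap L (v.adicCompletion L)).comp (algebraMap (𝓞 L) L)) a₀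
  have ha₀ : vv v (algebraMap L (v.adicCompletion L) (algebraMap (𝓞 L) L a₀)) ≤ 1 := by
    rw [vv_algebraMap]
    exact v.valuation_le_one a₀
  have hcoef : ∀ i, vv v (((pol fun i => algebraMap R k (c i)).map ψ).coeff i -
      ((pol y).map ((algebraMap L (v.adicCompletion L)).comp (algebraMap (𝓞 L) L))).coeff i) ≤
      exp (-2) ∧ vv v (((pol fun i => algebraMap R k (c i)).map ψ).coeff i) ≤ 1 := by
    intro i
    rw [pol_map, pol_map]
    by_cases hi : i < n + 1
    · have e1 := pol_coeff (fun i : Fin (n + 1) => ψ (algebraMap R k (c i))) ⟨i, hi⟩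
      have e2 := pol_coeff (fun i : Fin (n + 1) =>
        ((algebraMap L (v.adicCompletion L)).comp (algebraMap (𝓞 L) L)) (y i)) ⟨i, hi⟩
      simp only at e1 e2
      rw [e1, e2]
      exact ⟨hnear ⟨i, hi⟩, hc1 ⟨i, hi⟩⟩
    · rw [coeff_eq_zero_of_natDegree_lt (lt_of_le_of_lt (pol_natDegree_le _) (by omega)),
        coeff_eq_zero_of_natDegree_lt (lt_of_le_of_lt (pol_natDegree_le _) (by omega)), sub_zero,
        map_zero]
      exact ⟨zero_le, zero_le⟩
  have h3 := (poly_near (V := vv v) _ _ (fun i => (hcoef i).2) _ _ ha₀ ha₀ (exp (-2))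
    (fun i => (hcoef i).1) (by rw [sub_self, map_zero]; exact zero_le)).1
  rw [hq] at h3
  have h4 := val_eq_of v _ h1 h2
  set A := ((pol fun i => algebraMap R k (c i)).map ψ).eval
      (algebraMap L (v.adicCompletion L) (algebraMap (𝓞 L) L a₀)) with hA
  set B := algebraMap L (v.adicCompletion L) (algebraMap (𝓞 L) L ((pol y).eval a₀)) with hB
  have hBv : vv v B = exp (-1) := by rw [hB, vv_algebraMap, h4]
  have h5 : A = (A - B) + B := by ring
  have h6 : vv v (A - B) < vv v B := by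
    rw [hBv]
    refine h3.trans_lt ?_
    rw [exp_lt_exp]
    omega
  rw [h5, Valuation.map_add_eq_of_lt_right _ h6, hBv]

theorem unit_val (x : (vv v).valuationSubring) (hx : IsUnit x) :
    vv v (x : v.adicCompletion L) = 1 :=
  (Valuation.Integers.isUnit_iff_valuation_eq_one
    (Valuation.valuationSubring.integers (vv v))).1 hx

theorem unit_of_res (x : (vv v).valuationSubring)
    (hx : IsLocalRing.residue (vv v).valuationSubring x ≠ 0) :
    vv v (x : v.adicCompletion L) = 1 := by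
  refine unit_val v x ?_
  by_contra h
  exact hx ((IsLocalRing.residue_eq_zero_iff _).2 ((IsLocalRing.mem_maximalIdeal _).2 h))

theorem type3 (hPint : ∀ r, v.valuation L (P r) ≤ 1)
    (hψ : ∀ r, vv v (ψ (algebraMap R k r) - algebraMap L (v.adicCompletion L) (P r)) ≤ exp (-2))
    (h2v : (2 : 𝓞 L) ∉ v.asIdeal) (f a' b' : k[X]) (hab : a' * f + b' * f.derivative = 1)
    (hf : ∀ i, vv v (ψ (f.coeff i)) ≤ 1) (ha' : ∀ i, vv v (ψ (a'.coeff i)) ≤ 1)
    (hb' : ∀ i, vv v (ψ (b'.coeff i)) ≤ 1) (hlcf : vv v (ψ f.leadingCoeff) = 1)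
    {m : ℕ} (c : Fin (m + 3) → R) (y : Fin (m + 3) → 𝓞 L)
    (hcy : ∀ i, v.valuation L (P (c i) - algebraMap (𝓞 L) L (y i)) ≤ exp (-2))
    (hy : red (v.asIdeal ^ 2) (m + 3) y ∈ Dbl2 v m)
    (hsep : (pol fun i => algebraMap R k (c i)).Separable) (ℓ : ℕ) (hℓ : 2 ≤ ℓ)
    (hℓv : (ℓ : 𝓞 L) ∉ v.asIdeal) :
    ∃ b₁ b₂ : AlgebraicClosure k, b₁ ≠ b₂ ∧
      aeval b₁ (pol fun i => algebraMap R k (c i)) = 0 ∧
      aeval b₂ (pol fun i => algebraMap R k (c i)) = 0 ∧
      Pool.Agent.T6.H28.Fin.Coll ℓ f (pol fun i => algebraMap R k (c i)) b₁ b₂ := by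
  classical
  have hmax : v.asIdeal.IsMaximal := v.isMaximal
  let _ := Ideal.Quotient.field v.asIdeal
  obtain ⟨θ, hθ, hθr⟩ := exists_residue_map v
  have hθinj : Function.Injective θ := θ.injective
  obtain ⟨hnear, gB, hg1, hg2⟩ := core v P ψ hPint hψ θ hθr c y hcy
  obtain ⟨a, ⟨u, S, hu, hS, haS, hpol⟩, hne⟩ := hy
  obtain ⟨a₀, rfl⟩ := Ideal.Quotient.mk_surjective a
  have hpol' : (pol fun i => Ideal.Quotient.mk v.asIdeal (y i)) =
      C u * ((X - C (Ideal.Quotient.mk v.asIdeal a₀)) ^ 2 * ∏ b ∈ S, (X - C b)) := hpol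
  have haS' : Ideal.Quotient.mk v.asIdeal a₀ ∉ S := haS
  obtain ⟨ā, hā⟩ : ∃ ā, ā = Ideal.Quotient.mk v.asIdeal a₀ := ⟨_, rfl⟩
  rw [← hā] at hpol' haS'
  obtain ⟨D, hD⟩ : ∃ D : k[X], D = pol fun i => algebraMap R k (c i) := ⟨_, rfl⟩
  -- valuation of the value at the double root
  have hc1 : ∀ i, vv v (ψ (algebraMap R k (c i))) ≤ 1 := by
    intro i
    have h1 : ψ (algebraMap R k (c i)) = (ψ (algebraMap R k (c i)) -
      algebraMap L (v.adicCompletion L) (P (c i))) +
      algebraMap L (v.adicCompletion L) (P (c i)) := by ring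
    rw [h1]
    refine (Valuation.map_add _ _ _).trans (max_le ((hψ (c i)).trans ?_) ?_)
    · rw [← exp_zero, exp_le_exp]
      omega
    · rw [vv_algebraMap]
      exact hPint _
  have hval := val_double v ψ c y hnear hc1 a₀ (by
      rw [← Ideal.Quotient.eq_zero_iff_mem]
      have h1 : Ideal.Quotient.mk v.asIdeal ((pol y).eval a₀) =
          (pol fun i => Ideal.Quotient.mk v.asIdeal (y i)).eval ā := by
        rw [hā, ← pol_map, eval_map, eval₂_at_apply]
      rw [h1, hpol']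
      simp) (by
      rw [← Ideal.Quotient.eq_zero_iff_mem]
      intro h0
      apply hne
      have h1 : Ideal.Quotient.mk (v.asIdeal ^ 2) ((pol y).eval a₀) =
          (pol (red (v.asIdeal ^ 2) (m + 3) y)).eval (Ideal.Quotient.mk (v.asIdeal ^ 2) a₀) := by
        have e1 : pol (red (v.asIdeal ^ 2) (m + 3) y) =
            (pol y).map (Ideal.Quotient.mk (v.asIdeal ^ 2)) := by
          rw [pol_map]
          rfl
        rw [e1, eval_map, eval₂_at_apply]
      rw [← h1]
      exact h0)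
  rw [← hD] at hval hsep hg1 ⊢
  -- the residue
  rw [hpol'] at hg2
  have hg2' : gB.map (IsLocalRing.residue (vv v).valuationSubring) =
      C (θ u) * ((X - C (θ ā)) ^ 2 * ∏ b ∈ S, (X - C (θ b))) := by
    rw [hg2]
    simp only [Polynomial.map_mul, Polynomial.map_pow, Polynomial.map_sub, map_X, map_C,
      Polynomial.map_prod]
  have hθu : θ u ≠ 0 := (_root_.map_ne_zero θ).2 hu
  have hcoe : ∀ (h : (vv v).valuationSubring[X]) (x : (vv v).valuationSubring),
      (h.map (algebraMap (vv v).valuationSubring (v.adicCompletion L))).eval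
        (x : v.adicCompletion L) = ((h.eval x : (vv v).valuationSubring) : v.adicCompletion L) := by
    intro h x
    rw [eval_map]
    exact eval₂_at_apply (algebraMap (vv v).valuationSubring (v.adicCompletion L)) x
  obtain ⟨aA, haA, haAr⟩ : ∃ aA : (vv v).valuationSubring,
      (aA : v.adicCompletion L) = algebraMap L (v.adicCompletion L) (algebraMap (𝓞 L) L a₀) ∧
      IsLocalRing.residue (vv v).valuationSubring aA = θ ā := by
    have h1 : vv v (algebraMap L (v.adicCompletion L) (algebraMap (𝓞 L) L a₀)) ≤ 1 := by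
      rw [vv_algebraMap]
      exact v.valuation_le_one a₀
    refine ⟨⟨_, h1⟩, rfl, ?_⟩
    rw [hā]
    refine hθr _ _ ?_
    rw [sub_self, map_zero]
    exact zero_lt_one
  -- the simple roots
  have hex : ∀ b ∈ S, ∃ t : (vv v).valuationSubring, gB.IsRoot t ∧
      IsLocalRing.residue (vv v).valuationSubring t = θ b := by
    intro b hb
    obtain ⟨bA, hbA⟩ := IsLocalRing.residue_surjective (R := (vv v).valuationSubring) (θ b)
    have hfac : gB.map (IsLocalRing.residue (vv v).valuationSubring) =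
        (X - C (θ b)) * (C (θ u) * ((X - C (θ ā)) ^ 2 * ∏ b ∈ S.erase b, (X - C (θ b)))) := by
      rw [hg2', ← Finset.mul_prod_erase S _ hb]
      ring
    have hne0 : (C (θ u) * ((X - C (θ ā)) ^ 2 * ∏ b ∈ S.erase b, (X - C (θ b)))).eval (θ b) ≠ 0 := by
      rw [eval_mul, eval_C, eval_mul, eval_pow, eval_sub, eval_X, eval_C, eval_prod]
      refine mul_ne_zero hθu (mul_ne_zero (pow_ne_zero 2 (sub_ne_zero.2 ?_))
        (Finset.prod_ne_zero_iff.2 ?_))
      · intro h
        apply haS'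
        rw [← hθinj h]
        exact hb
      · intro b'' hb''
        rw [eval_sub, eval_X, eval_C, sub_ne_zero]
        intro h
        exact (Finset.mem_erase.1 hb'').1 (hθinj h).symm
    obtain ⟨t, ht1, ht2⟩ := simple_root v gB bA (by
        rw [hfac, hbA, IsRoot.def, eval_mul, eval_sub, eval_X, eval_C, sub_self, zero_mul]) (by
        rw [hfac, hbA, der_factor]
        exact hne0)
    exact ⟨t, ht1, ht2.trans hbA⟩
  choose! ρ hρ1 hρ2 using hex
  have hρinj : Set.InjOn ρ S := by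
    intro b hb b'' hb'' h
    apply hθinj
    rw [← hρ2 b hb, ← hρ2 b'' hb'', h]
  obtain ⟨T, hT⟩ : ∃ T : Finset (vv v).valuationSubring, T = S.image ρ := ⟨_, rfl⟩
  have hTcard : T.card = m := by rw [hT, Finset.card_image_of_injOn hρinj, hS]
  have hTr : ∀ t ∈ T, gB.IsRoot t ∧ ∃ b ∈ S, IsLocalRing.residue (vv v).valuationSubring t = θ b := by
    intro t ht
    rw [hT, Finset.mem_image] at ht
    obtain ⟨b, hb, rfl⟩ := ht
    exact ⟨hρ1 b hb, b, hb, hρ2 b hb⟩
  have hTinj : ∀ t ∈ T, ∀ t' ∈ T, t ≠ t' → IsLocalRing.residue (vv v).valuationSubring t ≠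
      IsLocalRing.residue (vv v).valuationSubring t' := by
    intro t ht t' ht' hne h
    rw [hT, Finset.mem_image] at ht ht'
    obtain ⟨b, hb, rfl⟩ := ht
    obtain ⟨b'', hb'', rfl⟩ := ht'
    rw [hρ2 b hb, hρ2 b'' hb''] at h
    exact hne (by rw [hθinj h])
  have hres0 : gB.map (IsLocalRing.residue (vv v).valuationSubring) ≠ 0 := by
    rw [hg2']
    exact mul_ne_zero (C_ne_zero.2 hθu) (mul_ne_zero (pow_ne_zero 2 (X_sub_C_ne_zero _))
      (Finset.prod_ne_zero_iff.2 fun b _ => X_sub_C_ne_zero _))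
  have hresd : (gB.map (IsLocalRing.residue (vv v).valuationSubring)).natDegree = m + 2 := by
    rw [hg2', natDegree_C_mul hθu, natDegree_mul (pow_ne_zero 2 (X_sub_C_ne_zero _))
      (Finset.prod_ne_zero_iff.2 fun b _ => X_sub_C_ne_zero _), natDegree_pow, natDegree_X_sub_C,
      natDegree_prod _ _ (fun b _ => X_sub_C_ne_zero _)]
    simp only [natDegree_X_sub_C, Finset.sum_const, smul_eq_mul, mul_one, hS]
    omega
  have hdegB : gB.natDegree = D.natDegree := by
    rw [← natDegree_map ψ, ← hg1]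
    exact (natDegree_map_eq_of_injective Subtype.val_injective gB).symm
  have hdegD : D.natDegree ≤ m + 2 := by
    rw [hD]
    exact pol_natDegree_le _
  obtain ⟨hd1, hlc⟩ := unit_lc v gB hresd (hdegB ▸ hdegD) hres0
  have hgB0 : gB ≠ 0 := by
    intro h
    rw [h, natDegree_zero] at hd1
    omega
  -- the quadratic factor
  have hTdvd : (∏ t ∈ T, (X - C t)) ∣ gB := by
    have h1 := (Multiset.prod_X_sub_C_dvd_iff_le_roots hgB0 T.val).2 (by
      rw [Multiset.le_iff_subset T.nodup]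
      intro t ht
      exact (mem_roots hgB0).2 (hTr t ht).1)
    exact h1
  obtain ⟨G, hG⟩ := hTdvd
  have hTmon : (∏ t ∈ T, (X - C t) : (vv v).valuationSubring[X]).Monic :=
    monic_prod_of_monic _ _ fun t _ => monic_X_sub_C t
  have hG0 : G ≠ 0 := by
    rintro rfl
    rw [mul_zero] at hG
    exact hgB0 hG
  have hGlc : G.leadingCoeff = gB.leadingCoeff := by
    rw [hG, leadingCoeff_mul, hTmon.leadingCoeff, one_mul]
  have hGdeg : G.natDegree = 2 := by
    have h1 := hd1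
    rw [hG, natDegree_mul hTmon.ne_zero hG0, natDegree_finset_prod_X_sub_C_eq_card, hTcard] at h1
    omega
  have hGres : G.map (IsLocalRing.residue (vv v).valuationSubring) =
      C (θ u) * (X - C (θ ā)) ^ 2 := by
    have h1 : (∏ b ∈ S, (X - C (θ b))) * G.map (IsLocalRing.residue (vv v).valuationSubring) =
        (∏ b ∈ S, (X - C (θ b))) * (C (θ u) * (X - C (θ ā)) ^ 2) := by
      have h2 : (∏ t ∈ T, (X - C t) : (vv v).valuationSubring[X]).map
          (IsLocalRing.residue (vv v).valuationSubring) = ∏ b ∈ S, (X - C (θ b)) := by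
        rw [Polynomial.map_prod, hT, Finset.prod_image hρinj]
        refine Finset.prod_congr rfl fun b hb => ?_
        rw [Polynomial.map_sub, map_X, map_C, hρ2 b hb]
      rw [← h2, ← Polynomial.map_mul, ← hG, hg2', h2]
      ring
    exact mul_left_cancel₀ (Finset.prod_ne_zero_iff.2 fun b _ => X_sub_C_ne_zero _) h1
  have hGlcr : IsLocalRing.residue (vv v).valuationSubring G.leadingCoeff = θ u := by
    have h1 : (G.map (IsLocalRing.residue (vv v).valuationSubring)).coeff 2 = θ u := by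
      rw [hGres, coeff_C_mul]
      have h2 : ((X - C (θ ā)) ^ 2).Monic := (monic_X_sub_C _).pow 2
      have h3 := h2.coeff_natDegree
      rw [natDegree_pow, natDegree_X_sub_C] at h3
      rw [h3, mul_one]
    rw [coeff_map] at h1
    rw [leadingCoeff, hGdeg]
    exact h1
  -- the `p`-adic place
  obtain ⟨p, hp, ι, E, hpv, hE, hmem, hι1, hι2⟩ := exists_iota v
  have hp2 : p ≠ 2 := by
    rintro rfl
    exact h2v (by exact_mod_cast hpv)
  have hpℓ : ℓ ≠ p := by
    rintro rfl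
    exact hℓv hpv
  obtain ⟨ιA, hιA⟩ : ∃ ιA : (vv v).valuationSubring →+* PadicAlgCl p,
      ∀ x, ιA x = ι (x : v.adicCompletion L) :=
    ⟨ι.comp (algebraMap (vv v).valuationSubring (v.adicCompletion L)), fun x => rfl⟩
  have hιAmap : ∀ h : (vv v).valuationSubring[X], h.map ιA =
      (h.map (algebraMap (vv v).valuationSubring (v.adicCompletion L))).map ι := by
    intro h
    ext i
    rw [coeff_map, coeff_map, coeff_map, hιA]
    rfl
  have hιAinj : Function.Injective ιA := by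
    intro x x' h
    rw [hιA, hιA] at h
    exact Subtype.val_injective (ι.injective h)
  have n1 : ∀ x, ‖ιA x‖ ≤ 1 := fun x => by
    rw [hιA]
    exact hι2 _ x.2
  have n3 : ∀ x, vv v x = 1 → ‖ι x‖ = 1 := by
    intro x hx
    have h0 : x ≠ 0 := by
      rintro rfl
      rw [map_zero] at hx
      exact zero_ne_one hx
    refine le_antisymm (hι2 x hx.le) ?_
    have h1 := hι2 x⁻¹ (by rw [map_inv₀, hx, inv_one])
    rw [map_inv₀, norm_inv] at h1
    exact (inv_le_one₀ (norm_pos_iff.2 ((_root_.map_ne_zero ι).2 h0))).1 h1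
  have n2 : ∀ x : (vv v).valuationSubring, IsLocalRing.residue (vv v).valuationSubring x = 0 →
      ‖ιA x‖ < 1 := by
    intro x hx
    rw [hιA]
    refine hι1 _ ?_
    rw [← mem_max]
    exact (IsLocalRing.residue_eq_zero_iff _).1 hx
  have n4 : ∀ x : (vv v).valuationSubring, IsLocalRing.residue (vv v).valuationSubring x ≠ 0 →
      ‖ιA x‖ = 1 := by
    intro x hx
    rw [hιA]
    exact n3 _ (unit_of_res v x hx)
  have nsub : ∀ x x' : (vv v).valuationSubring, IsLocalRing.residue (vv v).valuationSubring x ≠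
      IsLocalRing.residue (vv v).valuationSubring x' → ‖ιA x - ιA x'‖ = 1 := by
    intro x x' h
    rw [← map_sub]
    exact n4 _ (by rw [map_sub]; exact sub_ne_zero.2 h)
  obtain ⟨ã, hã⟩ : ∃ ã, ã = ιA aA := ⟨_, rfl⟩
  have hãT : ∀ t ∈ T, ‖ã - ιA t‖ = 1 := by
    intro t ht
    obtain ⟨-, b, hb, htb⟩ := hTr t ht
    rw [hã]
    refine nsub _ _ ?_
    rw [haAr, htb]
    intro h
    apply haS'
    rw [hθinj h]
    exact hb
  -- the roots of the quadratic factor
  obtain ⟨GC, hGC⟩ : ∃ GC : (PadicAlgCl p)[X], GC = G.map ιA := ⟨_, rfl⟩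
  have hGCdeg : GC.natDegree = 2 := by rw [hGC, natDegree_map_eq_of_injective hιAinj, hGdeg]
  have hGClc : GC.leadingCoeff = ιA G.leadingCoeff := by
    rw [hGC, leadingCoeff_map_of_injective hιAinj]
  have hGClcn : ‖GC.leadingCoeff‖ = 1 := by
    rw [hGClc]
    exact n4 _ (by rw [hGlcr]; exact hθu)
  have hGC0 : GC ≠ 0 := by
    intro h
    rw [h, natDegree_zero] at hGCdeg
    omega
  have hGCs : GC.Splits := IsAlgClosed.splits _
  obtain ⟨z₁, z₂, hz⟩ : ∃ z₁ z₂, GC.roots = {z₁, z₂} := by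
    rw [← Multiset.card_eq_two, ← hGCdeg]
    exact (splits_iff_card_roots.1 hGCs)
  have hGCprod : GC = C GC.leadingCoeff * ((X - C z₁) * (X - C z₂)) := by
    conv_lhs => rw [hGCs.eq_prod_roots]
    rw [hz]
    simp
  have hz1r : GC.eval z₁ = 0 := by
    rw [hGCprod]
    simp
  have hz2r : GC.eval z₂ = 0 := by
    rw [hGCprod]
    simp
  have hGCc : ∀ i, ‖GC.coeff i‖ ≤ 1 := by
    intro i
    rw [hGC, coeff_map]
    exact n1 _
  have hz1n := root_le_one GC hGCc hGClcn z₁ hz1r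
  have hz2n := root_le_one GC hGCc hGClcn z₂ hz2r
  have hclose : ∀ z, ‖z‖ ≤ 1 → GC.eval z = 0 → ‖z - ã‖ < 1 := by
    intro z hzn hzr
    obtain ⟨Δ, hΔ⟩ : ∃ Δ : (vv v).valuationSubring[X], Δ = G - C G.leadingCoeff * (X - C aA) ^ 2 :=
      ⟨_, rfl⟩
    have hΔr : Δ.map (IsLocalRing.residue (vv v).valuationSubring) = 0 := by
      rw [hΔ, Polynomial.map_sub, Polynomial.map_mul, Polynomial.map_pow, Polynomial.map_sub,
        map_X, map_C, map_C, hGres, hGlcr, haAr, sub_self]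
    have hΔc : ∀ i, ‖(Δ.map ιA).coeff i‖ < 1 := by
      intro i
      rw [coeff_map]
      refine n2 _ ?_
      rw [← coeff_map, hΔr, coeff_zero]
    have h1 := eval_lt_one (Δ.map ιA) hΔc z hzn
    have h2 : (Δ.map ιA).eval z = -(GC.leadingCoeff * (z - ã) ^ 2) := by
      rw [hΔ, Polynomial.map_sub, Polynomial.map_mul, Polynomial.map_pow, Polynomial.map_sub,
        map_X, map_C, map_C, eval_sub, ← hGC, hzr, hGClc, hã]
      simp
    rw [h2, norm_neg, norm_mul, hGClcn, one_mul, norm_pow] at h1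
    by_contra h3
    rw [not_lt] at h3
    have h4 : 1 ≤ ‖z - ã‖ ^ 2 := one_le_pow₀ h3
    linarith
  have hz1a := hclose z₁ hz1n hz1r
  have hz2a := hclose z₂ hz2n hz2r
  -- the uniformiser
  obtain ⟨x₀, hx₀⟩ : ∃ x₀ : (vv v).valuationSubring, x₀ = gB.eval aA := ⟨_, rfl⟩
  have hx₀v : vv v (x₀ : v.adicCompletion L) = exp (-1) := by
    rw [hx₀, ← hcoe, hg1, haA, hval]
  have hx₀0 : (x₀ : v.adicCompletion L) ≠ 0 := by
    intro h
    rw [h, map_zero] at hx₀v
    exact exp_ne_zero hx₀v.symm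
  have hϖ0 : ιA x₀ ≠ 0 := by
    rw [hιA]
    exact (_root_.map_ne_zero ι).2 hx₀0
  have hϖ1 : ‖ιA x₀‖ < 1 := by
    rw [hιA]
    refine hι1 _ ?_
    rw [hx₀v, ← exp_zero, exp_lt_exp]
    omega
  have hϖE : ιA x₀ ∈ E := by
    rw [hιA]
    exact (hmem _).2 ⟨_, rfl⟩
  have hvalE : ∀ e ∈ E, e ≠ 0 → ∃ m : ℤ, ‖e‖ = ‖ιA x₀‖ ^ m := by
    intro e he he0
    obtain ⟨z, rfl⟩ := (hmem e).1 he
    have hz0 : z ≠ 0 := by
      rintro rfl
      exact he0 (map_zero ι)
    have hzv : vv v z ≠ 0 := (Valuation.ne_zero_iff _).2 hz0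
    refine ⟨-(log (vv v z)), ?_⟩
    have h1 : vv v (z * (x₀ : v.adicCompletion L) ^ (log (vv v z))) = 1 := by
      rw [map_mul, map_zpow₀, hx₀v]
      nth_rewrite 1 [← exp_log hzv]
      rw [← exp_zsmul, ← exp_add, ← exp_zero]
      congr 1
      simp
    have h2 := n3 _ h1
    rw [map_mul, norm_mul, map_zpow₀, norm_zpow, ← hιA] at h2
    rw [zpow_neg]
    exact eq_inv_of_mul_eq_one_left h2
  have hprod : ‖z₁ - ã‖ * ‖z₂ - ã‖ = ‖ιA x₀‖ := by
    have h1 : ‖GC.eval ã‖ = ‖z₁ - ã‖ * ‖z₂ - ã‖ := by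
      conv_lhs => rw [hGCprod]
      rw [eval_mul, eval_C, eval_mul, eval_sub, eval_sub, eval_X, eval_C, eval_C, norm_mul,
        hGClcn, one_mul, norm_mul, ← norm_neg (ã - z₁), ← norm_neg (ã - z₂), neg_sub, neg_sub]
    have h2 : GC.eval ã = ιA (G.eval aA) := by
      rw [hGC, hã, eval_map, eval₂_at_apply]
    have h3 : ‖∏ t ∈ T, (ã - ιA t)‖ = 1 := by
      rw [_root_.norm_prod]
      exact Finset.prod_eq_one hãT
    have h4 : ιA x₀ = (∏ t ∈ T, (ã - ιA t)) * GC.eval ã := by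
      rw [h2, hx₀, hG, eval_mul, map_mul, eval_prod, map_prod]
      congr 1
      refine Finset.prod_congr rfl fun t _ => ?_
      rw [eval_sub, eval_X, eval_C, map_sub, hã]
    rw [h4, norm_mul, h3, one_mul, h1]
  -- all roots
  obtain ⟨DC, hDC⟩ : ∃ DC : (PadicAlgCl p)[X], DC = gB.map ιA := ⟨_, rfl⟩
  have hDCfac : DC = (∏ t ∈ T, (X - C (ιA t))) * GC := by
    rw [hDC, hG, Polynomial.map_mul, hGC, Polynomial.map_prod]
    congr 1
    refine Finset.prod_congr rfl fun t _ => ?_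
    rw [Polynomial.map_sub, map_X, map_C]
  have hDC0 : DC ≠ 0 := by
    rw [hDC]
    exact (Polynomial.map_ne_zero_iff hιAinj).2 hgB0
  have hDCD : DC = (D.map ψ).map ι := by rw [hDC, hιAmap, hg1]
  have hmemZ : ∀ z, z ∈ DC.roots.toFinset ↔ (z = z₁ ∨ z = z₂) ∨ ∃ t ∈ T, z = ιA t := by
    intro z
    rw [Multiset.mem_toFinset, mem_roots hDC0, IsRoot.def, hDCfac, eval_mul, mul_eq_zero,
      eval_prod, Finset.prod_eq_zero_iff]
    have h1 : GC.eval z = 0 ↔ z = z₁ ∨ z = z₂ := by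
      rw [hGCprod, eval_mul, eval_C, eval_mul, mul_eq_zero, mul_eq_zero, eval_sub, eval_sub,
        eval_X, eval_C, eval_C, sub_eq_zero, sub_eq_zero]
      exact ⟨fun h => h.resolve_left (leadingCoeff_ne_zero.2 hGC0), fun h => Or.inr h⟩
    rw [h1, or_comm]
    refine or_congr Iff.rfl (exists_congr fun t => and_congr Iff.rfl ?_)
    rw [eval_sub, eval_X, eval_C, sub_eq_zero]
  have hz12 : z₁ ≠ z₂ := by
    intro h
    have h1 : DC.Separable := by
      rw [hDCD]
      exact hsep.map.map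
    have h2 : (X - C z₁) * (X - C z₁) ∣ DC := by
      refine ⟨(∏ t ∈ T, (X - C (ιA t))) * C GC.leadingCoeff, ?_⟩
      rw [hDCfac]
      nth_rewrite 1 [hGCprod]
      rw [← h]
      ring
    exact not_isUnit_X_sub_C z₁ (h1.squarefree _ h2)
  haveI := hp
  haveI := hE
  have hZσ : ∀ σ : PadicAlgCl p ≃ₐ[E] PadicAlgCl p, ∀ z ∈ DC.roots.toFinset,
      σ z ∈ DC.roots.toFinset := by
    intro σ z hz
    rw [Multiset.mem_toFinset, mem_roots hDC0] at hz ⊢
    have h1 : DC.map (σ : PadicAlgCl p →+* PadicAlgCl p) = DC := by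
      ext i
      rw [coeff_map, hDC, coeff_map]
      exact σ.commutes ⟨ιA (gB.coeff i), by rw [hιA]; exact (hmem _).2 ⟨_, rfl⟩⟩
    have h2 : DC.eval (σ z) = σ (DC.eval z) := by
      conv_lhs => rw [← h1]
      rw [eval_map]
      exact eval₂_at_apply (σ : PadicAlgCl p →+* PadicAlgCl p) z
    rw [IsRoot.def, h2, show DC.eval z = 0 from hz, map_zero]
  have htn : ∀ t ∈ T, ∀ z, ‖z - ã‖ < 1 → ‖z - ιA t‖ = 1 := by
    intro t ht z hza
    have h1 : z - ιA t = (ã - ιA t) + (z - ã) := by ring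
    rw [h1, norm_add_lt (by rw [hãT t ht]; exact hza), hãT t ht]
  obtain ⟨hlt, E', hE'f, hEE', hZE', hE'⟩ := coll_core hp2 E (ιA x₀) hϖE hϖ0 hϖ1 hvalE
    DC.roots.toFinset hZσ z₁ z₂ ã ((hmemZ z₁).2 (Or.inl (Or.inl rfl)))
    ((hmemZ z₂).2 (Or.inl (Or.inr rfl))) hz12 (by rw [hã, hιA]; exact (hmem _).2 ⟨_, rfl⟩)
    hz1a hz2a hprod (by
      intro z hz hzz1 hzz2
      rcases (hmemZ z).1 hz with (h | h) | ⟨t, ht, rfl⟩
      · exact absurd h hzz1
      · exact absurd h hzz2
      refine ⟨?_, ιA t, ?_, ?_, ?_⟩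
      · rw [← norm_neg, neg_sub]
        exact hãT t ht
      · rw [hιA]
        exact (hmem _).2 ⟨_, rfl⟩
      · rw [sub_self, norm_zero]
        exact one_pos
      · intro z' hz' hne'
        rcases (hmemZ z').1 hz' with (h | h) | ⟨t', ht', rfl⟩
        · rw [h]
          exact htn t ht z₁ hz1a
        · rw [h]
          exact htn t ht z₂ hz2a
        · refine nsub _ _ (hTinj t' ht' t ht ?_)
          rintro rfl
          exact hne' rfl)
  -- the embedding of the algebraic closure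
  let _ : Algebra k (PadicAlgCl p) := (ι.comp ψ).toAlgebra
  let φ : AlgebraicClosure k →ₐ[k] PadicAlgCl p := IsAlgClosed.lift
  have hφ : ∀ x : k, (φ : AlgebraicClosure k →+* PadicAlgCl p)
      (algebraMap k (AlgebraicClosure k) x) = ι (ψ x) := fun x => φ.commutes x
  have hDφ : (D.map (algebraMap k (AlgebraicClosure k))).map
      (φ : AlgebraicClosure k →+* PadicAlgCl p) = DC := by
    rw [hDCD]
    ext i
    rw [coeff_map, coeff_map, coeff_map, coeff_map]
    exact hφ _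
  have hDs : (D.map (algebraMap k (AlgebraicClosure k))).Splits := IsAlgClosed.splits _
  have hD0 : D ≠ 0 := hsep.ne_zero
  have hD0' : D.map (algebraMap k (AlgebraicClosure k)) ≠ 0 :=
    (Polynomial.map_ne_zero_iff (algebraMap k (AlgebraicClosure k)).injective).2 hD0
  have hrt : DC.roots = (D.map (algebraMap k (AlgebraicClosure k))).roots.map
      (φ : AlgebraicClosure k →+* PadicAlgCl p) := by
    rw [← hDφ]
    exact hDs.roots_map _
  have hto : ∀ b : AlgebraicClosure k, aeval b D = 0 → φ b ∈ DC.roots.toFinset := by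
    intro b hb
    rw [Multiset.mem_toFinset, hrt, Multiset.mem_map]
    refine ⟨b, ?_, rfl⟩
    rw [mem_roots hD0', IsRoot.def, eval_map_algebraMap, hb]
  have hfrom : ∀ z ∈ DC.roots.toFinset, ∃ b : AlgebraicClosure k, aeval b D = 0 ∧ φ b = z := by
    intro z hz
    rw [Multiset.mem_toFinset, hrt, Multiset.mem_map] at hz
    obtain ⟨b, hb, hbz⟩ := hz
    rw [mem_roots hD0', IsRoot.def, eval_map_algebraMap] at hb
    exact ⟨b, hb, hbz⟩
  obtain ⟨b₁, hb₁, hb₁z⟩ := hfrom z₁ ((hmemZ z₁).2 (Or.inl (Or.inl rfl)))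
  obtain ⟨b₂, hb₂, hb₂z⟩ := hfrom z₂ ((hmemZ z₂).2 (Or.inl (Or.inr rfl)))
  have hιψ : ∀ x : k, vv v (ψ x) ≤ 1 →
      ‖(φ : AlgebraicClosure k →+* PadicAlgCl p) (algebraMap k (AlgebraicClosure k) x)‖ ≤ 1 := by
    intro x hx
    rw [hφ]
    exact hι2 _ hx
  have hDlc : vv v (ψ D.leadingCoeff) = 1 := by
    have h1 : ψ D.leadingCoeff = (gB.leadingCoeff : v.adicCompletion L) := by
      rw [← leadingCoeff_map ψ, ← hg1]
      exact leadingCoeff_map_of_injective Subtype.val_injective gB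
    rw [h1]
    exact unit_val v _ hlc
  refine ⟨b₁, b₂, ?_, hb₁, hb₂, p, hp, hpℓ, (φ : AlgebraicClosure k →+* PadicAlgCl p), ?_, ?_, ?_,
    ?_, ?_, E', hE'f, ?_, ?_, ?_⟩
  · rintro rfl
    exact hz12 (hb₁z.symm.trans hb₂z)
  · exact good_red _ f a' b' hab (fun i => hιψ _ (hf i)) (fun i => hιψ _ (ha' i))
      (fun i => hιψ _ (hb' i)) (by rw [hφ]; exact n3 _ hlcf)
  · rw [hφ]
    exact n3 _ hDlc
  · intro b hb
    have h1 := hto b hb
    rw [Multiset.mem_toFinset, mem_roots hDC0] at h1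
    refine root_le_one DC (fun i => ?_) ?_ _ h1
    · rw [hDC, coeff_map]
      exact n1 _
    · rw [hDC, leadingCoeff_map_of_injective hιAinj, hιA]
      exact n3 _ (unit_val v _ hlc)
  · intro b hb hbne1 hbne2
    rcases (hmemZ _).1 (hto b hb) with (h | h) | ⟨t, ht, h⟩
    · exact absurd (φ.injective (h.trans hb₁z.symm)) hbne1
    · exact absurd (φ.injective (h.trans hb₂z.symm)) hbne2
    · change ‖φ b₁ - φ b‖ = 1
      rw [h, hb₁z]
      exact htn t ht z₁ hz1a
  · change ‖φ b₁ - φ b₂‖ < 1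
    rw [hb₁z, hb₂z]
    exact hlt
  · intro x
    rw [hφ]
    exact hEE' ((hmem _).2 ⟨_, rfl⟩)
  · intro b hb
    exact hZE' _ (hto b hb)
  · change ¬ ∃ e ∈ E', ‖φ b₁ - φ b₂‖ = ‖e‖ ^ ℓ
    rw [hb₁z, hb₂z]
    exact hE' ℓ hℓ

end place

end Pool.Agent.T6.H28.BB
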