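import Pool.Agent.T6.H28.BB.Setup
import Pool.Agent.T6.H28.BB.Loc3
import Pool.Agent.T6.H28.BB.Link

/-! # Almost all polynomials are linked -/

set_option autoImplicit false
set_option linter.all false

namespace Pool.Agent.T6.H28.BB

open IsDedekindDomain NumberField WithZero Polynomial Pool.Agent.W858.SF Pool.Agent.W858.SG
open Pool.Agent.TH120.Sec (red pr)
open Pool.Agent.TH377.Sup

/-- the polynomial is irreducible of the right degree, and its roots are connected by collisions -/
def GoodD {k : Type} [Field k] (f : k[X]) (n : ℕ) (D : k[X]) : Prop :=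
  Irreducible D ∧ D.natDegree = n ∧
    ∀ ℓ : ℕ, ℓ.Prime → ℓ ∣ f.natDegree → Pool.Agent.T6.H28.Fin.Conn ℓ f D

section numberfield

variable {L : Type} [Field L] [NumberField L]

theorem AE.notMem (N : 𝓞 L) (hN : N ≠ 0) :
    AE fun v : HeightOneSpectrum (𝓞 L) => N ∉ v.asIdeal := ⟨N, hN, fun v hv => hv⟩

theorem AE.large (m : ℕ) : AE fun v : HeightOneSpectrum (𝓞 L) => m ≤ Ideal.absNorm v.asIdeal := by
  refine (AE.notMem (L := L) ((m.factorial : ℕ) : 𝓞 L) ?_).mono ?_
  · exact_mod_cast Nat.factorial_ne_zero m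
  · intro v hv
    by_contra h
    apply hv
    have h1 : ((Ideal.absNorm v.asIdeal : ℕ) : 𝓞 L) ∈ v.asIdeal := Ideal.absNorm_mem _
    have h2 : Ideal.absNorm v.asIdeal ∣ m.factorial :=
      Nat.dvd_factorial (Pool.Agent.W417.SecC.D2.norm_pos v) (by omega)
    obtain ⟨t, ht⟩ := h2
    rw [ht, Nat.cast_mul]
    exact Ideal.mul_mem_right _ _ h1

end numberfield

section vals

variable {L : Type} [Field L] [NumberField L] (v : HeightOneSpectrum (𝓞 L))
  {R : Type} [CommRing R] {k : Type} [Field k] [CharZero k] [Algebra R k]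
  (P : R →+* L) (ψ : k →+* v.adicCompletion L)

theorem val_le_one (hPint : ∀ r, v.valuation L (P r) ≤ 1)
    (hψ : ∀ r, vv v (ψ (algebraMap R k r) - algebraMap L (v.adicCompletion L) (P r)) ≤ exp (-2))
    (w : k) (r s : R) (hw : w * algebraMap R k s = algebraMap R k r)
    (hs : v.valuation L (P s) = 1) : vv v (ψ w) ≤ 1 := by
  have hγ2 : (exp (-2) : ℤᵐ⁰) < 1 := by
    rw [← exp_zero, exp_lt_exp]
    omega
  have hr : vv v (ψ (algebraMap R k r)) ≤ 1 := by
    have h1 : ψ (algebraMap R k r) = (ψ (algebraMap R k r) -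
      algebraMap L (v.adicCompletion L) (P r)) + algebraMap L (v.adicCompletion L) (P r) := by ring
    rw [h1]
    refine (Valuation.map_add _ _ _).trans (max_le ((hψ r).trans hγ2.le) ?_)
    rw [vv_algebraMap]
    exact hPint r
  have hs1 : vv v (ψ (algebraMap R k s)) = 1 := by
    have h1 : ψ (algebraMap R k s) = (ψ (algebraMap R k s) -
      algebraMap L (v.adicCompletion L) (P s)) + algebraMap L (v.adicCompletion L) (P s) := by ring
    rw [h1, Valuation.map_add_eq_of_lt_right]
    · rw [vv_algebraMap, hs]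
    · rw [vv_algebraMap, hs]
      exact (hψ s).trans_lt hγ2
  have h2 : vv v (ψ w) * 1 = vv v (ψ (algebraMap R k r)) := by
    rw [← hw, map_mul, map_mul, hs1]
  rw [mul_one] at h2
  rw [h2]
  exact hr

end vals

theorem main {R k : Type} [CommRing R] [IsDomain R] [CharZero R] [Algebra.FiniteType ℤ R]
    [Field k] [Algebra R k] [IsFractionRing R k] (f : k[X]) (hf : f.Separable)
    (hfd : 0 < f.natDegree) (n : ℕ) (hn : 1 ≤ n) :
    DZR (n + 1) {c : Fin (n + 1) → R | ¬ GoodD f n (pol fun i => algebraMap R k (c i))} := by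
  classical
  have hcz : CharZero k := charZero_of_injective_algebraMap (IsFractionRing.injective R k)
  have hf0 : f ≠ 0 := hf.ne_zero
  obtain ⟨a', b', hab⟩ := hf
  -- the coefficients
  let W : Finset k := (f.support.image f.coeff ∪ a'.support.image a'.coeff) ∪
    (b'.support.image b'.coeff ∪ {f.leadingCoeff⁻¹})
  have hWf : ∀ i, f.coeff i ∈ W ∨ f.coeff i = 0 := by
    intro i
    by_cases h : f.coeff i = 0
    · exact Or.inr h
    · exact Or.inl (Finset.mem_union_left _ (Finset.mem_union_left _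
        (Finset.mem_image_of_mem _ (mem_support_iff.2 h))))
  have hWa : ∀ i, a'.coeff i ∈ W ∨ a'.coeff i = 0 := by
    intro i
    by_cases h : a'.coeff i = 0
    · exact Or.inr h
    · exact Or.inl (Finset.mem_union_left _ (Finset.mem_union_right _
        (Finset.mem_image_of_mem _ (mem_support_iff.2 h))))
  have hWb : ∀ i, b'.coeff i ∈ W ∨ b'.coeff i = 0 := by
    intro i
    by_cases h : b'.coeff i = 0
    · exact Or.inr h
    · exact Or.inl (Finset.mem_union_right _ (Finset.mem_union_left _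
        (Finset.mem_image_of_mem _ (mem_support_iff.2 h))))
  have hWl : f.leadingCoeff⁻¹ ∈ W :=
    Finset.mem_union_right _ (Finset.mem_union_right _ (Finset.mem_singleton_self _))
  have hfrac : ∀ w : k, ∃ r s : R, s ≠ 0 ∧ w * algebraMap R k s = algebraMap R k r := by
    intro w
    obtain ⟨r, s, hs, hw⟩ := IsFractionRing.div_surjective (A := R) w
    have hs0 : s ≠ 0 := nonZeroDivisors.ne_zero hs
    have hsk : algebraMap R k s ≠ 0 := by
      rw [Ne, map_eq_zero_iff _ (IsFractionRing.injective R k)]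
      exact hs0
    refine ⟨r, s, hs0, ?_⟩
    rw [← hw]
    field_simp
  choose nu de hde hnd using hfrac
  obtain ⟨L, _, _, P, hemb, hM, hPU⟩ := setup (R := R) (k := k) (W.image de) (by
    intro u hu
    obtain ⟨w, -, rfl⟩ := Finset.mem_image.1 hu
    exact hde w)
  -- the places
  have e1 : AE fun v : HeightOneSpectrum (𝓞 L) => ∀ u ∈ W.image de, v.valuation L (P u) = 1 :=
    AE.ball _ fun u hu => AE.unit _ (hPU u hu)
  have e2 := AE.notMem (L := L) 2 two_ne_zero
  have e3 := AE.notMem (L := L) ((f.natDegree : ℕ) : 𝓞 L) (by exact_mod_cast hfd.ne')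
  have e4 := AE.large (L := L) (2 * n)
  obtain ⟨N1, hN1, hAE⟩ := ((hemb.and e1).and (e2.and (e3.and e4)))
  have hPint : ∀ v : HeightOneSpectrum (𝓞 L), N1 ∉ v.asIdeal → ∀ r, v.valuation L (P r) ≤ 1 :=
    fun v hv => (hAE v hv).1.1.1
  -- the bad sets
  let Bad : (∀ v : HeightOneSpectrum (𝓞 L), Set (Fin (n + 1) → 𝓞 L ⧸ v.asIdeal ^ 2)) →
      Set (Fin (n + 1) → R) := fun S => {c | ∀ v : HeightOneSpectrum (𝓞 L), N1 ∉ v.asIdeal →
    ∀ y : Fin (n + 1) → 𝓞 L,
      (∀ i, v.valuation L (P (c i) - algebraMap (𝓞 L) L (y i)) ≤ exp (-2)) →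
      red (v.asIdeal ^ 2) (n + 1) y ∉ S v}
  have hBad : ∀ S (δ : ℝ), 0 < δ → δ ≤ 1 →
      (∀ v : HeightOneSpectrum (𝓞 L), N1 ∉ v.asIdeal → (((S v)ᶜ).ncard : ℝ) ≤
        (1 - δ * (1 / (Ideal.absNorm v.asIdeal : ℝ) - 1 / (Ideal.absNorm v.asIdeal : ℝ) ^ 2)) *
          ((Ideal.absNorm v.asIdeal : ℝ) ^ 2) ^ (n + 1)) → DZR (n + 1) (Bad S) := by
    intro S δ hδ hδ1 hS
    exact sieve P N1 hN1 hPint hM (n + 1) S δ hδ hδ1 hS (Bad S) fun v hv c hc y hy => hc v hv y hy
  have hex : ∀ S (c : Fin (n + 1) → R), c ∉ Bad S → ∃ v : HeightOneSpectrum (𝓞 L),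
      N1 ∉ v.asIdeal ∧ ∃ y : Fin (n + 1) → 𝓞 L,
      (∀ i, v.valuation L (P (c i) - algebraMap (𝓞 L) L (y i)) ≤ exp (-2)) ∧
      red (v.asIdeal ^ 2) (n + 1) y ∈ S v := by
    intro S c hc
    by_contra h
    apply hc
    intro v hv y hy hy2
    exact h ⟨v, hv, y, hy, hy2⟩
  -- irreducibility
  have d1 : DZR (n + 1) {c : Fin (n + 1) → R | ¬ (Irreducible (pol fun i => algebraMap R k (c i)) ∧
      (pol fun i => algebraMap R k (c i)).natDegree = n)} := by
    have hnr : (1 : ℝ) ≤ n := by exact_mod_cast hn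
    refine (hBad (fun v => Irr2 v n) (1 / (2 * n)) (by positivity) ?_
      fun v hv => irr2_bound v n hn).mono ?_
    · rw [div_le_one (by positivity)]
      linarith
    · intro c hc
      by_contra h
      obtain ⟨v, hv, y, hy, hy2⟩ := hex _ c h
      obtain ⟨⟨⟨h1, ψ, hψ⟩, h2⟩, h3, h4, h5⟩ := hAE v hv
      exact hc (type1 v P ψ h1 hψ c y hy hy2)
  -- transitivity
  have d2 : DZR (n + 1) {c : Fin (n + 1) → R |
      ¬ (Irreducible (pol fun i => algebraMap R k (c i)) →
        (pol fun i => algebraMap R k (c i)).natDegree = n →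
        Two (pol fun i => algebraMap R k (c i)))} := by
    rcases (show n ≤ 2 ∨ 3 ≤ n by omega) with h3 | h3
    · refine d1.mono fun c hc => ?_
      exact absurd (fun hi hd => two_small _ hi (by omega)) hc
    · obtain ⟨d, rfl⟩ : ∃ d, n = d + 1 := ⟨n - 1, by omega⟩
      have hd : 2 ≤ d := by omega
      have hdr : (1 : ℝ) ≤ d := by
        have : 1 ≤ d := by omega
        exact_mod_cast this
      refine (hBad (fun v => Two2 v d) (1 / (2 * d)) (by positivity) ?_
        fun v hv => two2_bound v d hd).mono ?_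
      · rw [div_le_one (by positivity)]
        linarith
      · intro c hc
        by_contra h
        obtain ⟨v, hv, y, hy, hy2⟩ := hex _ c h
        obtain ⟨⟨⟨h1, ψ, hψ⟩, h2⟩, h3, h4, h5⟩ := hAE v hv
        exact hc fun hi _ => type2 v P ψ h1 hψ hd c y hy hy2 hi
  -- collisions
  have d3 : DZR (n + 1) {c : Fin (n + 1) → R |
      ¬ (Irreducible (pol fun i => algebraMap R k (c i)) →
        (pol fun i => algebraMap R k (c i)).natDegree = n →
        ∀ ℓ : ℕ, ℓ.Prime → ℓ ∣ f.natDegree →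
        ((pol fun i => algebraMap R k (c i)).natDegree = 1 ∨
        ∃ b₁ b₂ : AlgebraicClosure k, b₁ ≠ b₂ ∧
          aeval b₁ (pol fun i => algebraMap R k (c i)) = 0 ∧
          aeval b₂ (pol fun i => algebraMap R k (c i)) = 0 ∧
          Pool.Agent.T6.H28.Fin.Coll ℓ f (pol fun i => algebraMap R k (c i)) b₁ b₂))} := by
    rcases (show n = 1 ∨ 2 ≤ n by omega) with h3 | h3
    · refine d1.mono fun c hc => ?_
      exact absurd (fun hi hd ℓ hℓ hℓd => Or.inl (by omega)) hc
    · obtain ⟨m, rfl⟩ : ∃ m, n = m + 2 := ⟨n - 2, by omega⟩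
      refine (hBad (fun v => Dbl2 v m) (1 / (2 ^ (m + 1) * m.factorial)) (by positivity) ?_
        fun v hv => dbl2_bound v m ?_).mono ?_
      · rw [div_le_one (by positivity)]
        have h6 : 1 ≤ 2 ^ (m + 1) * m.factorial :=
          Nat.mul_pos (pow_pos (by norm_num) _) (Nat.factorial_pos m)
        exact_mod_cast h6
      · have := (hAE v hv).2.2.2
        omega
      · intro c hc
        by_contra h
        obtain ⟨v, hv, y, hy, hy2⟩ := hex _ c h
        obtain ⟨⟨⟨h1, ψ, hψ⟩, h2⟩, h3', h4, h5⟩ := hAE v hv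
        refine hc fun hi _ ℓ hℓ hℓd => Or.inr ?_
        have hw : ∀ w ∈ W, vv v (ψ w) ≤ 1 := fun w hw =>
          val_le_one v P ψ h1 hψ w (nu w) (de w) (hnd w)
            (h2 _ (Finset.mem_image_of_mem _ hw))
        have hcoe : ∀ g : k[X], (∀ i, g.coeff i ∈ W ∨ g.coeff i = 0) →
            ∀ i, vv v (ψ (g.coeff i)) ≤ 1 := by
          intro g hg i
          rcases hg i with h | h
          · exact hw _ h
          · rw [h, map_zero, map_zero]
            exact zero_le
        have hlc : vv v (ψ f.leadingCoeff) = 1 := by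
          refine le_antisymm (hcoe f hWf f.natDegree) ?_
          have h6 := hw _ hWl
          rw [map_inv₀, map_inv₀] at h6
          have h7 : vv v (ψ f.leadingCoeff) ≠ 0 := by
            rw [Ne, Valuation.zero_iff, map_eq_zero]
            exact leadingCoeff_ne_zero.2 hf0
          exact (inv_le_one₀ (zero_lt_iff.2 h7)).1 h6
        have hℓv : (ℓ : 𝓞 L) ∉ v.asIdeal := by
          intro h6
          apply h4
          obtain ⟨q, hq⟩ := hℓd
          rw [hq, Nat.cast_mul]
          exact Ideal.mul_mem_right _ _ h6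
        exact type3 v P ψ h1 hψ h3' f a' b' hab (hcoe f hWf) (hcoe a' hWa) (hcoe b' hWb) hlc
          c y hy hy2 hi.separable ℓ hℓ.two_le hℓv
  refine ((d1.union d2).union d3).mono ?_
  intro c hc
  by_contra h
  rw [Set.mem_union, Set.mem_union, not_or, not_or] at h
  obtain ⟨⟨h1, h2⟩, h3⟩ := h
  have g1 : Irreducible (pol fun i => algebraMap R k (c i)) ∧
      (pol fun i => algebraMap R k (c i)).natDegree = n := by
    by_contra h'
    exact h1 h'
  have g2 : Two (pol fun i => algebraMap R k (c i)) := by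
    by_contra h'
    exact h2 fun h'' => h' (h'' g1.1 g1.2)
  apply hc
  refine ⟨g1.1, g1.2, fun ℓ hℓ hℓd => ?_⟩
  have g3 := Classical.not_not.1 h3 g1.1 g1.2 ℓ hℓ hℓd
  have : Fact ℓ.Prime := ⟨hℓ⟩
  exact link ℓ f _ g1.1 g2 g3

end Pool.Agent.T6.H28.BB
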