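import Pool.Agent.TH377.Sup.DensR
import Pool.Agent.T6.H28.BB.CntV

/-! # Density zero sets of vectors over a finitely generated ring -/

set_option autoImplicit false
set_option linter.all false

namespace Pool.Agent.T6.H28.BB

open Polynomial WithZero NumberField IsDedekindDomain Pool.Agent.W858.SF Pool.Agent.W858.SG
open Pool.Agent.TH120.Sec (red)

/-- density zero -/
def DZR {R : Type} [CommRing R] (n : ℕ) (E : Set (Fin n → R)) : Prop :=
  ∀ ε : ℝ, 0 < ε → ∃ I : Ideal R, Finite (R ⧸ I) ∧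
    (Set.ncard ((fun (c : Fin n → R) i => Ideal.Quotient.mk I (c i)) '' E) : ℝ) ≤
      ε * (Nat.card (R ⧸ I) : ℝ) ^ n

theorem DZR.mono {R : Type} [CommRing R] {n : ℕ} {E E' : Set (Fin n → R)} (h : DZR n E')
    (hE : E ⊆ E') : DZR n E := by
  intro ε hε
  obtain ⟨I, hI, h1⟩ := h ε hε
  refine ⟨I, hI, le_trans ?_ h1⟩
  exact_mod_cast Set.ncard_le_ncard (Set.image_mono hE) (Set.toFinite _)

/-- passing to a smaller ideal -/
theorem ncard_finer {R : Type} [CommRing R] {n : ℕ} (E : Set (Fin n → R)) (I J : Ideal R)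
    (hIJ : I ≤ J) [hI : Finite (R ⧸ I)] [hJ : Finite (R ⧸ J)] (ε : ℝ)
    (h : (Set.ncard ((fun (c : Fin n → R) i => Ideal.Quotient.mk J (c i)) '' E) : ℝ) ≤
      ε * (Nat.card (R ⧸ J) : ℝ) ^ n) :
    (Set.ncard ((fun (c : Fin n → R) i => Ideal.Quotient.mk I (c i)) '' E) : ℝ) ≤
      ε * (Nat.card (R ⧸ I) : ℝ) ^ n := by
  classical
  let f : R ⧸ I →+* R ⧸ J := Ideal.Quotient.factor hIJ
  have hf : Function.Surjective f := Ideal.Quotient.factor_surjective hIJ
  let s : AddSubgroup (R ⧸ I) := f.toAddMonoidHom.ker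
  have hcard : Nat.card (R ⧸ I) = Nat.card (R ⧸ J) * Nat.card s := by
    rw [AddSubgroup.card_eq_card_quotient_mul_card_addSubgroup s]
    congr 1
    exact Nat.card_congr (QuotientAddGroup.quotientKerEquivOfSurjective f.toAddMonoidHom hf).toEquiv
  set A := (fun (c : Fin n → R) i => Ideal.Quotient.mk I (c i)) '' E with hA
  set B := (fun (c : Fin n → R) i => Ideal.Quotient.mk J (c i)) '' E with hB
  let F : (Fin n → R ⧸ I) → (Fin n → R ⧸ J) := fun x i => f (x i)
  have hAfin : A.Finite := Set.toFinite _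
  have hFA : F '' A = B := by
    rw [hA, hB, Set.image_image]
    rfl
  have h1 : A.ncard ≤ Nat.card s ^ n * B.ncard := by
    have hA2 : (F '' A).ncard = (hAfin.toFinset.image F).card := by
      rw [← Set.ncard_coe_finset, Finset.coe_image, Set.Finite.coe_toFinset]
    rw [← hFA, Set.ncard_eq_toFinset_card A hAfin, hA2]
    have h2 := Finset.card_le_mul_card_image (f := F) hAfin.toFinset (Nat.card s ^ n) (by
      intro b hb
      obtain ⟨x₀, hx₀, hx₀b⟩ := Finset.mem_image.1 hb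
      have h3 : (hAfin.toFinset.filter fun x => F x = b).card ≤
          (Set.univ : Set (Fin n → s)).ncard := by
        rw [← Set.ncard_coe_finset]
        refine Set.ncard_le_ncard_of_injOn
          (fun x => fun i => if h : x i - x₀ i ∈ s then (⟨x i - x₀ i, h⟩ : s) else 0) ?_ ?_
          (Set.toFinite _)
        · intro x hx
          exact Set.mem_univ _
        · intro x hx y hy hxy
          have hx' : F x = b := (Finset.mem_filter.1 (Finset.mem_coe.1 hx)).2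
          have hy' : F y = b := (Finset.mem_filter.1 (Finset.mem_coe.1 hy)).2
          have hmem : ∀ z : Fin n → R ⧸ I, F z = b → ∀ i, z i - x₀ i ∈ s := by
            intro z hz i
            rw [AddMonoidHom.mem_ker]
            change f (z i - x₀ i) = 0
            rw [map_sub, sub_eq_zero]
            exact congrFun (hz.trans hx₀b.symm) i
          funext i
          have h4 := congrFun hxy i
          simp only [dif_pos (hmem x hx' i), dif_pos (hmem y hy' i)] at h4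
          have h5 := congrArg Subtype.val h4
          simpa using h5
      refine h3.trans ?_
      rw [Set.ncard_univ, Nat.card_fun, Nat.card_fin])
    exact h2
  have h2 : (A.ncard : ℝ) ≤ (Nat.card s : ℝ) ^ n * (B.ncard : ℝ) := by exact_mod_cast h1
  refine h2.trans ?_
  rw [hcard]
  push_cast
  rw [mul_pow]
  have h3 : (0 : ℝ) ≤ (Nat.card s : ℝ) ^ n := by positivity
  nlinarith [mul_le_mul_of_nonneg_left h h3]

theorem DZR.union {R : Type} [CommRing R] {n : ℕ} {E E' : Set (Fin n → R)} (h : DZR n E)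
    (h' : DZR n E') : DZR n (E ∪ E') := by
  intro ε hε
  obtain ⟨I, hI, h1⟩ := h (ε / 2) (half_pos hε)
  obtain ⟨I', hI', h1'⟩ := h' (ε / 2) (half_pos hε)
  haveI hII : Finite (R ⧸ I ⊓ I') := by
    let g : R ⧸ I ⊓ I' →+* (R ⧸ I) × (R ⧸ I') :=
      (Ideal.Quotient.factor (inf_le_left : I ⊓ I' ≤ I)).prod
        (Ideal.Quotient.factor (inf_le_right : I ⊓ I' ≤ I'))
    refine Finite.of_injective g ?_
    rw [injective_iff_map_eq_zero]
    intro x hx
    obtain ⟨y, rfl⟩ := Ideal.Quotient.mk_surjective x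
    have h2 : Ideal.Quotient.mk I y = 0 := congrArg Prod.fst hx
    have h3 : Ideal.Quotient.mk I' y = 0 := congrArg Prod.snd hx
    rw [Ideal.Quotient.eq_zero_iff_mem] at h2 h3 ⊢
    exact ⟨h2, h3⟩
  refine ⟨I ⊓ I', hII, ?_⟩
  have e1 := ncard_finer E (I ⊓ I') I inf_le_left (ε / 2) h1
  have e2 := ncard_finer E' (I ⊓ I') I' inf_le_right (ε / 2) h1'
  rw [Set.image_union]
  have e3 := Set.ncard_union_le
    ((fun (c : Fin n → R) i => Ideal.Quotient.mk (I ⊓ I') (c i)) '' E)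
    ((fun (c : Fin n → R) i => Ideal.Quotient.mk (I ⊓ I') (c i)) '' E')
  have e4 : ((((fun (c : Fin n → R) i => Ideal.Quotient.mk (I ⊓ I') (c i)) '' E) ∪
    ((fun (c : Fin n → R) i => Ideal.Quotient.mk (I ⊓ I') (c i)) '' E')).ncard : ℝ) ≤
    (((fun (c : Fin n → R) i => Ideal.Quotient.mk (I ⊓ I') (c i)) '' E).ncard : ℝ) +
    (((fun (c : Fin n → R) i => Ideal.Quotient.mk (I ⊓ I') (c i)) '' E').ncard : ℝ) := by
    exact_mod_cast e3
  linarith

theorem sieve {R : Type} [CommRing R] {L : Type} [Field L] [NumberField L] (P : R →+* L)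
    (N1 : 𝓞 L) (hN1 : N1 ≠ 0)
    (hPint : ∀ v : HeightOneSpectrum (𝓞 L), N1 ∉ v.asIdeal → ∀ r, v.valuation L (P r) ≤ 1)
    (hM : ∃ M : ℤ, M ≠ 0 ∧ ∀ y : 𝓞 L, ∃ r : R, (M : L) * algebraMap (𝓞 L) L y = P r)
    (n : ℕ) (S : ∀ v : HeightOneSpectrum (𝓞 L), Set (Fin n → 𝓞 L ⧸ v.asIdeal ^ 2))
    (δ : ℝ) (hδ : 0 < δ) (hδ1 : δ ≤ 1)
    (hS : ∀ v : HeightOneSpectrum (𝓞 L), N1 ∉ v.asIdeal → (((S v)ᶜ).ncard : ℝ) ≤
      (1 - δ * (1 / (Ideal.absNorm v.asIdeal : ℝ) - 1 / (Ideal.absNorm v.asIdeal : ℝ) ^ 2)) *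
        ((Ideal.absNorm v.asIdeal : ℝ) ^ 2) ^ n)
    (E : Set (Fin n → R))
    (hE : ∀ v : HeightOneSpectrum (𝓞 L), N1 ∉ v.asIdeal → ∀ c ∈ E, ∀ y : Fin n → 𝓞 L,
      (∀ i, v.valuation L (P (c i) - algebraMap (𝓞 L) L (y i)) ≤ exp (-2)) →
      red (v.asIdeal ^ 2) n y ∉ S v) :
    DZR n E := by
  classical
  intro ε hε
  obtain ⟨M, hM0, hM⟩ := hM
  have hMO : (M : 𝓞 L) ≠ 0 := by exact_mod_cast hM0
  obtain ⟨T, hT, hTε⟩ := Pool.Agent.TH120.Sec.supply_split 2 Nat.prime_two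
    (N1 * (M : 𝓞 L)) (mul_ne_zero hN1 hMO) δ hδ hδ1 ε hε
  have hTN1 : ∀ v ∈ T, N1 ∉ v.asIdeal := fun v hv h => (hT v hv).1
    (Ideal.mul_mem_right _ _ h)
  have hTM : ∀ v ∈ T, (M : 𝓞 L) ∉ v.asIdeal := fun v hv h => (hT v hv).1
    (Ideal.mul_mem_left _ _ h)
  have hPint : ∀ v ∈ T, ∀ r, v.valuation L (P r) ≤ 1 := fun v hv => hPint v (hTN1 v hv)
  set J := ∏ v ∈ T, v.asIdeal ^ 2 with hJ
  have hJ0 : J ≠ ⊥ := Finset.prod_ne_zero_iff.2 fun v _ => pow_ne_zero _ v.ne_bot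
  have hfinJ : Finite (𝓞 L ⧸ J) := Ideal.finiteQuotientOfFreeOfNeBot _ hJ0
  -- the ideal
  let I : Ideal R :=
    { carrier := {r | ∀ v ∈ T, v.valuation L (P r) ≤ exp (-2)}
      add_mem' := by
        intro r s hr hs v hv
        rw [map_add]
        exact (Valuation.map_add _ _ _).trans (max_le (hr v hv) (hs v hv))
      zero_mem' := by
        intro v hv
        rw [map_zero, map_zero]
        exact zero_le
      smul_mem' := by
        intro r s hs v hv
        rw [smul_eq_mul, map_mul, map_mul, mul_comm]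
        exact mul_le_of_le_of_le_one (hs v hv) (hPint v hv r) }
  have hImem : ∀ r, r ∈ I ↔ ∀ v ∈ T, v.valuation L (P r) ≤ exp (-2) := fun r => Iff.rfl
  have hcl : ∀ r r' : R, ∀ y y' : 𝓞 L,
      (∀ v ∈ T, v.valuation L (P r - algebraMap (𝓞 L) L y) ≤ exp (-2)) →
      (∀ v ∈ T, v.valuation L (P r' - algebraMap (𝓞 L) L y') ≤ exp (-2)) →
      (r - r' ∈ I ↔ y - y' ∈ J) := by
    intro r r' y y' h1 h2
    rw [hImem, hJ, mem_prod_iff]
    refine forall₂_congr fun v hv => ?_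
    rw [← val_le_iff]
    constructor
    · intro h3
      have h5 : algebraMap (𝓞 L) L (y - y') = P (r - r') - ((P r - algebraMap (𝓞 L) L y) -
        (P r' - algebraMap (𝓞 L) L y')) := by
        rw [map_sub, map_sub]
        ring
      rw [h5]
      exact (Valuation.map_sub _ _ _).trans (max_le h3
        ((Valuation.map_sub _ _ _).trans (max_le (h1 v hv) (h2 v hv))))
    · intro h3
      have h5 : P (r - r') = algebraMap (𝓞 L) L (y - y') + ((P r - algebraMap (𝓞 L) L y) -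
        (P r' - algebraMap (𝓞 L) L y')) := by
        rw [map_sub, map_sub]
        ring
      rw [h5]
      exact (Valuation.map_add _ _ _).trans (max_le h3
        ((Valuation.map_sub _ _ _).trans (max_le (h1 v hv) (h2 v hv))))
  have hex : ∀ r : R, ∃ y : 𝓞 L,
      ∀ v ∈ T, v.valuation L (P r - algebraMap (𝓞 L) L y) ≤ exp (-2) := fun r =>
    exists_int_near T (P r) fun v hv => hPint v hv r
  choose Y hY using hex
  have hsurj : ∀ y : 𝓞 L, ∃ r : R,
      ∀ v ∈ T, v.valuation L (P r - algebraMap (𝓞 L) L y) ≤ exp (-2) := by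
    intro y
    obtain ⟨r0, hr0⟩ := hM y
    obtain ⟨j, hj⟩ := exists_pow_one T (M : 𝓞 L) hTM
    refine ⟨(M : R) ^ j * r0, fun v hv => ?_⟩
    have h1 : P ((M : R) ^ j * r0) - algebraMap (𝓞 L) L y =
        algebraMap (𝓞 L) L (((M : 𝓞 L) ^ (j + 1) - 1) * y) := by
      rw [map_mul, ← hr0, map_pow, map_intCast]
      simp only [map_mul, map_sub, map_pow, map_intCast, map_one]
      ring
    rw [h1, val_le_iff]
    exact Ideal.mul_mem_right _ _ ((mem_prod_iff T _).1 hj v hv)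
  let b : R ⧸ I → 𝓞 L ⧸ J := fun q => Ideal.Quotient.mk J (Y (Quotient.out q))
  have hout : ∀ q : R ⧸ I, Ideal.Quotient.mk I (Quotient.out q) = q := fun q =>
    Quotient.out_eq q
  have hbmk : ∀ (r : R) (y : 𝓞 L),
      (∀ v ∈ T, v.valuation L (P r - algebraMap (𝓞 L) L y) ≤ exp (-2)) →
      b (Ideal.Quotient.mk I r) = Ideal.Quotient.mk J y := by
    intro r y hry
    change Ideal.Quotient.mk J _ = _
    rw [Ideal.Quotient.eq]
    refine (hcl _ r _ y (hY _) hry).1 ?_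
    rw [← Ideal.Quotient.eq]
    exact hout _
  have hbinj : Function.Injective b := by
    intro q q' hqq
    have h1 := Ideal.Quotient.eq.1 hqq
    rw [← hcl (Quotient.out q) (Quotient.out q') _ _ (hY _) (hY _), ← Ideal.Quotient.eq, hout,
      hout] at h1
    exact h1
  have hbsurj : Function.Surjective b := by
    intro z
    obtain ⟨y, rfl⟩ := Ideal.Quotient.mk_surjective z
    obtain ⟨r, hr⟩ := hsurj y
    exact ⟨Ideal.Quotient.mk I r, hbmk r y hr⟩
  have hfinI : Finite (R ⧸ I) := Finite.of_injective b hbinj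
  have hcard : Nat.card (R ⧸ I) = Nat.card (𝓞 L ⧸ J) :=
    Nat.card_congr (Equiv.ofBijective b ⟨hbinj, hbsurj⟩)
  refine ⟨I, hfinI, ?_⟩
  -- counting in the number field
  set E' : Set (Fin n → 𝓞 L) := {y | ∃ c ∈ E, ∀ v ∈ T, ∀ i,
    v.valuation L (P (c i) - algebraMap (𝓞 L) L (y i)) ≤ exp (-2)} with hE'
  obtain ⟨e, he⟩ := Pool.Agent.W417.SecC.D2.crt T
  have hfinv : ∀ v : T, Finite (𝓞 L ⧸ v.1.asIdeal ^ 2) := fun v =>
    Pool.Agent.TH120.Sec.finite_sq v.1
  have hcardJ : (Nat.card (𝓞 L ⧸ J) : ℝ) = ∏ v ∈ T, (Ideal.absNorm v.asIdeal : ℝ) ^ 2 := by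
    rw [hJ, Nat.card_congr e.toEquiv, Nat.card_pi, ← Finset.prod_coe_sort T]
    push_cast
    refine Finset.prod_congr rfl fun v _ => ?_
    rw [Pool.Agent.W417.SecC.D2.card_sq]
    push_cast
    rfl
  have hbad : ∀ y ∈ E', ∀ v : T, red (v.1.asIdeal ^ 2) n y ∈ (S v.1)ᶜ := by
    rintro y ⟨c, hc, hcy⟩ v hy
    exact hE v.1 (hTN1 v.1 v.2) c hc y (hcy v.1 v.2) hy
  have h1 := Pool.Agent.TH120.Sec.countd J T (fun v => v.1.asIdeal ^ 2) e he hfinv n E'
    (fun v => (S v.1)ᶜ) hbad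
  have h1' : ((red J n '' E').ncard : ℝ) ≤ ∏ v : T, (((S v.1)ᶜ).ncard : ℝ) := by
    exact_mod_cast h1
  have h2 := Pool.Agent.TH120.Sec.prod_bound T (fun v : T => (((S v.1)ᶜ).ncard : ℝ))
    (fun v => (1 - δ * (1 / (Ideal.absNorm v.asIdeal : ℝ) -
        1 / (Ideal.absNorm v.asIdeal : ℝ) ^ 2)))
    (fun v => ((Ideal.absNorm v.asIdeal : ℝ) ^ 2) ^ n) (fun _ => Nat.cast_nonneg _)
    (fun v => hS v.1 (hTN1 v.1 v.2))
  have h3 : ((red J n '' E').ncard : ℝ) ≤ ε * (Nat.card (𝓞 L ⧸ J) : ℝ) ^ n := by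
    refine (h1'.trans h2).trans ?_
    rw [Finset.prod_pow, hcardJ]
    exact mul_le_mul_of_nonneg_right hTε.le
      (pow_nonneg (Finset.prod_nonneg fun _ _ => sq_nonneg _) _)
  have hle : Set.ncard ((fun (c : Fin n → R) i => Ideal.Quotient.mk I (c i)) '' E) ≤
      Set.ncard (red J n '' E') := by
    have hfr : Finite (Fin n → 𝓞 L ⧸ J) := inferInstance
    refine Set.ncard_le_ncard_of_injOn (fun q i => b (q i)) ?_ ?_ (Set.toFinite _)
    · rintro _ ⟨c, hc, rfl⟩
      refine ⟨fun i => Y (c i), ⟨c, hc, fun v hv i => hY (c i) v hv⟩, ?_⟩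
      funext i
      exact (hbmk (c i) _ (hY (c i))).symm
    · intro q _ q' _ h
      funext i
      exact hbinj (congrFun h i)
  rw [hcard]
  exact le_trans (by exact_mod_cast hle) h3

end Pool.Agent.T6.H28.BB
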